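import Mathlib

set_option autoImplicit false

namespace Pool.Agent.H968R4

/-- Two fixed point free involutions have a common proper 2-colouring. -/
theorem two_inv {X : Type*} [Finite X] (α β : X → X) (hα : ∀ x, α (α x) = x) (hα' : ∀ x, α x ≠ x)
    (hβ : ∀ x, β (β x) = x) (hβ' : ∀ x, β x ≠ x) :
    ∃ z : X → Bool, ∀ x, z (α x) ≠ z x ∧ z (β x) ≠ z x := by
  classical
  let a : Equiv.Perm X := ⟨α, α, hα, hα⟩
  let b : Equiv.Perm X := ⟨β, β, hβ, hβ⟩
  have ha : ∀ x, a x = α x := fun _ => rfl
  have hb : ∀ x, b x = β x := fun _ => rfl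
  have haa : a * a = 1 := by ext x; simp [ha, hα]
  have hbb : b * b = 1 := by ext x; simp [hb, hβ]
  have hai : a⁻¹ = a := inv_eq_of_mul_eq_one_left haa
  have hbi : b⁻¹ = b := inv_eq_of_mul_eq_one_left hbb
  let σ : Equiv.Perm X := b * a
  have hconj : a * σ * a⁻¹ = σ⁻¹ := by
    show a * (b * a) * a⁻¹ = (b * a)⁻¹
    rw [mul_inv_rev, hai, hbi]
    rw [mul_assoc, mul_assoc, haa, mul_one]
  have hz : ∀ m : ℤ, ∀ x, a ((σ ^ m) x) = (σ ^ (-m)) (a x) := by
    intro m x
    have h1 : a * σ ^ m * a⁻¹ = σ ^ (-m) := by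
      rw [← conj_zpow, hconj, inv_zpow, zpow_neg]
    have h2 : a * σ ^ m = σ ^ (-m) * a := by
      rw [← h1, mul_assoc, inv_mul_cancel, mul_one]
    have := congrArg (fun e : Equiv.Perm X => e x) h2
    simpa [Equiv.Perm.mul_apply] using this
  have hne : ∀ x, ¬ σ.SameCycle x (a x) := by
    rintro x ⟨n, hn⟩
    rcases Int.even_or_odd' n with ⟨m, hm | hm⟩
    · have h1 : a ((σ ^ m) x) = (σ ^ m) x := by
        rw [hz, ← hn, ← Equiv.Perm.mul_apply, ← zpow_add, hm]
        congr 2; ring
      exact hα' _ h1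
    · have h1 : b ((σ ^ (m + 1)) x) = (σ ^ (m + 1)) x := by
        have hbσ : b = σ * a := by
          show b = b * a * a
          rw [mul_assoc, haa, mul_one]
        have : b ((σ ^ (m + 1)) x) = σ (a ((σ ^ (m + 1)) x)) := by
          conv_lhs => rw [hbσ]
          rfl
        rw [this, hz, ← hn, ← Equiv.Perm.mul_apply, ← Equiv.Perm.mul_apply,
          ← zpow_one_add, ← zpow_add, hm]
        congr 2; ring
      exact hβ' _ h1
  let S : Setoid X := Equiv.Perm.SameCycle.setoid σ
  obtain ⟨e, he⟩ : ∃ e : Quotient S → ℕ, Function.Injective e := by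
    have : Finite (Quotient S) := inferInstance
    exact (Countable.exists_injective_nat (Quotient S))
  have hq : ∀ x y, (Quotient.mk S x = Quotient.mk S y) ↔ σ.SameCycle x y := by
    intro x y
    constructor
    · intro h; exact Quotient.exact h
    · intro h; exact Quotient.sound h
  refine ⟨fun x => decide (e (Quotient.mk S x) < e (Quotient.mk S (a x))), ?_⟩
  intro x
  have h0 : e (Quotient.mk S x) ≠ e (Quotient.mk S (a x)) := by
    intro h
    exact hne x ((hq _ _).1 (he h))
  have h1 : Quotient.mk S (b x) = Quotient.mk S (a x) := by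
    rw [hq]
    refine ⟨-1, ?_⟩
    have : σ (a x) = b x := by
      show b (a (a x)) = b x
      rw [ha, ha, hα]
    rw [zpow_neg_one, Equiv.Perm.inv_eq_iff_eq]
    exact this.symm
  have h2 : Quotient.mk S (a (b x)) = Quotient.mk S x := by
    rw [hq]
    refine ⟨1, ?_⟩
    show (σ ^ (1 : ℤ)) (a (b x)) = x
    rw [zpow_one]
    show b (a (a (b x))) = x
    rw [ha, ha, hα, hb, hb, hβ]
  have h3 : Quotient.mk S (a (a x)) = Quotient.mk S x := by
    rw [ha, ha, hα]
  constructor
  · show decide (e (Quotient.mk S (a x)) < e (Quotient.mk S (a (a x)))) ≠ _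
    rw [h3]
    by_cases hlt : e (Quotient.mk S x) < e (Quotient.mk S (a x))
    · have : ¬ e (Quotient.mk S (a x)) < e (Quotient.mk S x) := by omega
      simp [hlt, this]
    · have : e (Quotient.mk S (a x)) < e (Quotient.mk S x) := by omega
      simp [hlt, this]
  · show decide (e (Quotient.mk S (b x)) < e (Quotient.mk S (a (b x)))) ≠ _
    rw [h1, h2]
    by_cases hlt : e (Quotient.mk S x) < e (Quotient.mk S (a x))
    · have : ¬ e (Quotient.mk S (a x)) < e (Quotient.mk S x) := by omega
      simp [hlt, this]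
    · have : e (Quotient.mk S (a x)) < e (Quotient.mk S x) := by omega
      simp [hlt, this]

/-- A key preserving involution moving a point in every key class with at least two points. -/
theorem pairing {E K : Type*} (key : E → K) :
    ∃ ρ : E → E, (∀ e, ρ (ρ e) = e) ∧ (∀ e, key (ρ e) = key e) ∧
      ∀ e e', e ≠ e' → key e = key e' → ∃ e'', key e'' = key e ∧ ρ e'' ≠ e'' := by
  classical
  let P : K → Equiv.Perm E := fun k =>
    if h : ∃ p q : E, p ≠ q ∧ key p = k ∧ key q = k then
      Equiv.swap h.choose h.choose_spec.choose else 1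
  have hP : ∀ e, key (P (key e) e) = key e := by
    intro e
    by_cases h : ∃ p q : E, p ≠ q ∧ key p = key e ∧ key q = key e
    · have hs := h.choose_spec.choose_spec
      have : P (key e) = Equiv.swap h.choose h.choose_spec.choose := dif_pos h
      rw [this]
      by_cases h1 : e = h.choose
      · rw [Equiv.swap_apply_def, if_pos h1]; exact hs.2.2
      · by_cases h2 : e = h.choose_spec.choose
        · rw [Equiv.swap_apply_def, if_neg h1, if_pos h2]; exact hs.2.1
        · rw [Equiv.swap_apply_of_ne_of_ne h1 h2]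
    · have : P (key e) = 1 := dif_neg h
      rw [this]; rfl
  have hPP : ∀ k e, P k (P k e) = e := by
    intro k e
    by_cases h : ∃ p q : E, p ≠ q ∧ key p = k ∧ key q = k
    · have : P k = Equiv.swap h.choose h.choose_spec.choose := dif_pos h
      rw [this, Equiv.swap_apply_self]
    · have : P k = 1 := dif_neg h
      rw [this]; rfl
  refine ⟨fun e => P (key e) e, ?_, hP, ?_⟩
  · intro e
    show P (key (P (key e) e)) (P (key e) e) = e
    rw [hP, hPP]
  · intro e e' hne hk
    have h : ∃ p q : E, p ≠ q ∧ key p = key e ∧ key q = key e := ⟨e, e', hne, rfl, hk.symm⟩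
    have hs := h.choose_spec.choose_spec
    refine ⟨h.choose, hs.2.1, ?_⟩
    show P (key h.choose) h.choose ≠ h.choose
    rw [hs.2.1]
    have : P (key e) = Equiv.swap h.choose h.choose_spec.choose := dif_pos h
    rw [this, Equiv.swap_apply_left]
    exact hs.1.symm

end Pool.Agent.H968R4
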