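import Mathlib
import Pool.Agent.H968R4.TwoInv

set_option autoImplicit false

open Finset

namespace Pool.Agent.H968R4

/-- `U` is the shore of a directed cut of the digraph with arcs `a : A` from `tail a` to `head a`:
it is nonempty, not everything, and no arc enters it. -/
def IsShore {V A : Type} (tail head : A → V) (U : Set V) : Prop :=
  U.Nonempty ∧ U ≠ Set.univ ∧ ∀ a, head a ∈ U → tail a ∈ U

/-- `F` is a `k`-dijoin: at least `k` arcs of `F` leave every shore of a directed cut. -/
def IsKDijoin {V A : Type} (tail head : A → V) (k : ℕ) (F : Set A) : Prop :=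
  ∀ U : Set V, IsShore tail head U → k ≤ ({a | a ∈ F ∧ tail a ∈ U ∧ head a ∉ U} : Set A).ncard

/-- A source has no entering arcs. -/
def IsSource {V A : Type} (head : A → V) (v : V) : Prop := ∀ a, head a ≠ v

/-- A sink has no leaving arcs. -/
def IsSink {V A : Type} (tail : A → V) (v : V) : Prop := ∀ a, tail a ≠ v

/-- `v` is reachable from `u` by a directed path. -/
def Reach {V A : Type} (tail head : A → V) (u v : V) : Prop :=
  Relation.ReflTransGen (fun x y => ∃ a, tail a = x ∧ head a = y) u v

variable {V A : Type}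

/-- closed sets: no arc enters -/
def Cl (tail head : A → V) (U : Set V) : Prop := ∀ a, head a ∈ U → tail a ∈ U

theorem Cl.reach {tail head : A → V} {U : Set V} (hU : Cl tail head U) {u v : V}
    (h : Reach tail head u v) : v ∈ U → u ∈ U := by
  induction h with
  | refl => exact id
  | tail _ hs ih =>
    obtain ⟨a, rfl, rfl⟩ := hs
    intro hv
    exact ih (hU a hv)

set_option linter.unusedSectionVars false

section Core

variable [Fintype V] [Fintype A] [DecidableEq V] [DecidableEq A]

/-- at least `j` arcs of `F` leave every closed set containing `s` but not `t` -/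
def Cov (tail head : A → V) (s t : V) (j : ℕ) (F : Finset A) : Prop :=
  ∀ U : Finset V, Cl tail head (U : Set V) → s ∈ U → t ∉ U →
    j ≤ (F.filter (fun a => tail a ∈ U ∧ head a ∉ U)).card

/-- tail of an arc of `F` or of a return arc -/
def tl (tail : A → V) (t : V) {F : Finset A} {n : ℕ} : (↥F ⊕ Fin n) → V
  | Sum.inl e => tail e.1
  | Sum.inr _ => t

/-- head of an arc of `F` or of a return arc -/
def hd (head : A → V) (s : V) {F : Finset A} {n : ℕ} : (↥F ⊕ Fin n) → V
  | Sum.inl e => head e.1
  | Sum.inr _ => s

/-- sum over F-arcs of the crossing indicator -/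
theorem sum_cross (tail head : A → V) (F : Finset A) (U : Finset V)
    (hU : Cl tail head (U : Set V)) (p : A → Prop) [DecidablePred p] :
    (((F.filter p).filter (fun a => tail a ∈ U ∧ head a ∉ U)).card : ℤ) =
      ∑ e : ↥F, if p e.1 then
        ((if tail e.1 ∈ U then (1 : ℤ) else 0) - (if head e.1 ∈ U then 1 else 0)) else 0 := by
  rw [Finset.sum_coe_sort F (fun e => if p e then
        ((if tail e ∈ U then (1 : ℤ) else 0) - (if head e ∈ U then 1 else 0)) else 0)]
  rw [← Finset.sum_filter, Finset.card_filter]
  push_cast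
  apply Finset.sum_congr rfl
  intro e _
  have := hU e
  by_cases h1 : tail e ∈ U <;> by_cases h2 : head e ∈ U
  · simp [h1, h2]
  · simp [h1, h2]
  · exact absurd (this (by exact_mod_cast h2)) (by exact_mod_cast h1)
  · simp [h1, h2]

/-- Hall's theorem gives the flow in the form of a bijection. -/
theorem flow (tail head : A → V) (s t : V) (j : ℕ) (F : Finset A) (hF : Cov tail head s t j F) :
    ∃ θ : (↥F ⊕ Fin j) ≃ (↥F ⊕ Fin j), ∀ x, Reach tail head (tl tail t x) (hd head s (θ x)) := by
  classical
  let T : (↥F ⊕ Fin j) → Finset (↥F ⊕ Fin j) :=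
    fun x => univ.filter (fun y => Reach tail head (tl tail t x) (hd head s y))
  have hall : ∀ S : Finset (↥F ⊕ Fin j), S.card ≤ (S.biUnion T).card := by
    intro S
    let R : Finset V := univ.filter (fun v => ∃ x ∈ S, Reach tail head (tl tail t x) v)
    let U : Finset V := univ.filter (fun v => v ∉ R)
    have hRU : ∀ v, v ∈ U ↔ v ∉ R := by intro v; simp [U]
    have hRup : ∀ a, tail a ∈ R → head a ∈ R := by
      intro a ha
      simp only [R, mem_filter, mem_univ, true_and] at ha ⊢
      obtain ⟨x, hx, hr⟩ := ha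
      exact ⟨x, hx, hr.tail ⟨a, rfl, rfl⟩⟩
    have hUcl : Cl tail head (U : Set V) := by
      intro a ha
      have h1 : head a ∈ U := by exact_mod_cast ha
      have : tail a ∈ U := by
        rw [hRU] at h1 ⊢
        exact fun h => h1 (hRup a h)
      exact_mod_cast this
    have h1 : S ⊆ univ.filter (fun x : ↥F ⊕ Fin j => tl tail t x ∈ R) := by
      intro x hx
      simp only [mem_filter, mem_univ, true_and, R]
      exact ⟨x, hx, Relation.ReflTransGen.refl⟩
    have h2 : univ.filter (fun y : ↥F ⊕ Fin j => hd head s y ∈ R) ⊆ S.biUnion T := by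
      intro y hy
      simp only [mem_filter, mem_univ, true_and, R] at hy
      obtain ⟨x, hx, hr⟩ := hy
      simp only [mem_biUnion, T, mem_filter, mem_univ, true_and]
      exact ⟨x, hx, hr⟩
    refine (card_le_card h1).trans (le_trans ?_ (card_le_card h2))
    have key : ((univ.filter (fun x : ↥F ⊕ Fin j => tl tail t x ∈ R)).card : ℤ) ≤
        ((univ.filter (fun y : ↥F ⊕ Fin j => hd head s y ∈ R)).card : ℤ) := by
      rw [Finset.card_filter, Finset.card_filter]
      push_cast
      rw [Fintype.sum_sum_type, Fintype.sum_sum_type]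
      have hsub := sum_cross tail head F U hUcl (fun _ => True)
      simp only [if_true, Finset.filter_true] at hsub
      have e1 : ∀ e : ↥F, ((if tail e.1 ∈ U then (1 : ℤ) else 0) - (if head e.1 ∈ U then 1 else 0))
          = (if head e.1 ∈ R then (1 : ℤ) else 0) - (if tail e.1 ∈ R then 1 else 0) := by
        intro e
        simp only [hRU]
        by_cases q1 : tail e.1 ∈ R <;> by_cases q2 : head e.1 ∈ R <;> simp [q1, q2]
      simp only [e1, Finset.sum_sub_distrib] at hsub
      have e2 : (∑ i : Fin j, if tl tail t (Sum.inr i : ↥F ⊕ Fin j) ∈ R then (1 : ℤ) else 0) =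
          if t ∈ R then (j : ℤ) else 0 := by
        by_cases q : t ∈ R <;> simp [tl, q]
      have e3 : (∑ i : Fin j, if hd head s (Sum.inr i : ↥F ⊕ Fin j) ∈ R then (1 : ℤ) else 0) =
          if s ∈ R then (j : ℤ) else 0 := by
        by_cases q : s ∈ R <;> simp [hd, q]
      have e4 : (∑ e : ↥F, if tl tail t (Sum.inl e : ↥F ⊕ Fin j) ∈ R then (1 : ℤ) else 0) =
          ∑ e : ↥F, if tail e.1 ∈ R then (1 : ℤ) else 0 := rfl
      have e5 : (∑ e : ↥F, if hd head s (Sum.inl e : ↥F ⊕ Fin j) ∈ R then (1 : ℤ) else 0) =
          ∑ e : ↥F, if head e.1 ∈ R then (1 : ℤ) else 0 := rfl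
      rw [e2, e3, e4, e5]
      have hc := hF U hUcl
      by_cases qt : t ∈ R
      · by_cases qs : s ∈ R
        · simp only [qt, qs, if_true]
          have : (0 : ℤ) ≤ ((F.filter (fun a => tail a ∈ U ∧ head a ∉ U)).card : ℤ) := by positivity
          linarith
        · have := hc ((hRU s).2 qs) (fun h => (hRU t).1 h qt)
          have : (j : ℤ) ≤ ((F.filter (fun a => tail a ∈ U ∧ head a ∉ U)).card : ℤ) := by
            exact_mod_cast this
          simp only [qt, qs, if_true, if_false]
          linarith
      · have h0 : (0 : ℤ) ≤ ((F.filter (fun a => tail a ∈ U ∧ head a ∉ U)).card : ℤ) := by positivity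
        have h00 : (0 : ℤ) ≤ if s ∈ R then (j : ℤ) else 0 := by split_ifs <;> positivity
        simp only [qt, if_false]
        linarith
    exact_mod_cast key
  obtain ⟨f, hf, hfT⟩ := (Finset.all_card_le_biUnion_card_iff_exists_injective T).1 hall
  refine ⟨Equiv.ofBijective f (Finite.injective_iff_bijective.1 hf), ?_⟩
  intro x
  have := hfT x
  simp only [T, mem_filter, mem_univ, true_and] at this
  exact this

/-- the key of a half arc: its end vertex (none for return arcs) and its side -/
def ky (tail head : A → V) {F : Finset A} {n : ℕ} (h : (↥F ⊕ Fin n) × Bool) : Option V × Bool :=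
  (match h.1 with
    | Sum.inl e => some (if h.2 then tail e.1 else head e.1)
    | Sum.inr _ => none, h.2)

/-- signed weight of a key -/
def wt (U : Finset V) : Option V × Bool → ℤ
  | (some v, true) => if v ∈ U then 1 else 0
  | (some v, false) => - (if v ∈ U then 1 else 0)
  | (none, true) => 0
  | (none, false) => -1

theorem split (tail head : A → V) (s t : V) (F : Finset A) (hF : Cov tail head s t 2 F) :
    ∃ b : A → Bool, (∀ β : Bool, Cov tail head s t 1 (F.filter (fun a => b a = β))) ∧
      (∀ a ∈ F, ∀ a' ∈ F, a ≠ a' → tail a = tail a' → ∀ β, ∃ a'' ∈ F, tail a'' = tail a ∧ b a'' = β) ∧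
      (∀ a ∈ F, ∀ a' ∈ F, a ≠ a' → head a = head a' → ∀ β, ∃ a'' ∈ F, head a'' = head a ∧ b a'' = β) := by
  classical
  obtain ⟨θ, hθ⟩ := flow tail head s t 2 F hF
  obtain ⟨ρ, hρ1, hρ2, hρ3⟩ := pairing (ky tail head (F := F) (n := 2))
  let α : ((↥F ⊕ Fin 2) × Bool) × Bool → ((↥F ⊕ Fin 2) × Bool) × Bool := fun q =>
    match q with
    | ((x, side), true) => ((x, !side), true)
    | ((x, true), false) => ((θ x, false), false)
    | ((x, false), false) => ((θ.symm x, true), false)
  let β₀ : ((↥F ⊕ Fin 2) × Bool) × Bool → ((↥F ⊕ Fin 2) × Bool) × Bool := fun q =>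
    if ρ q.1 = q.1 then (q.1, !q.2) else (ρ q.1, q.2)
  have hα : ∀ q, α (α q) = q := by
    rintro ⟨⟨x, side⟩, cp⟩
    cases side <;> cases cp <;> simp [α]
  have hα' : ∀ q, α q ≠ q := by
    rintro ⟨⟨x, side⟩, cp⟩
    cases side <;> cases cp <;> simp [α]
  have hβ : ∀ q, β₀ (β₀ q) = q := by
    rintro ⟨h, cp⟩
    by_cases hh : ρ h = h
    · simp [β₀, hh]
    · have h1 : ¬ ρ (ρ h) = ρ h := by rw [hρ1]; exact fun e => hh e.symm
      simp [β₀, hh, h1, hρ1]
      intro h2; exact absurd h2.symm hh
  have hβ' : ∀ q, β₀ q ≠ q := by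
    rintro ⟨h, cp⟩
    by_cases hh : ρ h = h
    · simp [β₀, hh]
    · simp [β₀, hh]
  obtain ⟨z, hz⟩ := two_inv α β₀ hα hα' hβ hβ'
  have bne : ∀ p q : Bool, p ≠ q → p = !q := by decide
  let c : (↥F ⊕ Fin 2) → Bool := fun x => z ((x, true), true)
  let k : (↥F ⊕ Fin 2) × Bool → Bool := fun h => if h.2 then !z (h, false) else z (h, false)
  have hc2 : ∀ x, z ((x, false), true) = !c x := by
    intro x
    exact bne _ _ (hz ((x, true), true)).1
  have hk1 : ∀ x, k (x, true) = k (θ x, false) := by
    intro x
    have := bne _ _ (hz ((x, true), false)).1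
    show (!z ((x, true), false)) = z ((θ x, false), false)
    exact this.symm
  have hk2 : ∀ h, ρ h = h → k h = c h.1 := by
    rintro ⟨x, side⟩ hh
    have h1 := bne _ _ (hz ((x, side), true)).2
    have h2 : β₀ ((x, side), true) = ((x, side), false) := by simp [β₀, hh]
    rw [h2] at h1
    cases side
    · show z ((x, false), false) = c x
      rw [h1, hc2, Bool.not_not]
    · show (!z ((x, true), false)) = c x
      rw [h1, Bool.not_not]
  have hk3 : ∀ h, ρ h ≠ h → k (ρ h) = !k h ∧ c (ρ h).1 = !c h.1 := by
    intro h hh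
    have hside : (ρ h).2 = h.2 := by
      have := congrArg Prod.snd (hρ2 h)
      simpa [ky] using this
    have h1 : z (ρ h, true) = !z (h, true) := by
      have := bne _ _ (hz (h, true)).2
      have h2 : β₀ (h, true) = (ρ h, true) := by simp [β₀, hh]
      rwa [h2] at this
    have h3 : z (ρ h, false) = !z (h, false) := by
      have := bne _ _ (hz (h, false)).2
      have h2 : β₀ (h, false) = (ρ h, false) := by simp [β₀, hh]
      rwa [h2] at this
    constructor
    · show (if (ρ h).2 then !z (ρ h, false) else z (ρ h, false)) = !(if h.2 then !z (h, false) else z (h, false))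
      rw [hside, h3]
      cases h.2 <;> simp
    · obtain ⟨x, side⟩ := h
      rcases hr : ρ (x, side) with ⟨x', side'⟩
      rw [hr] at hside h1
      simp only at hside
      subst hside
      cases side'
      · rw [hc2, hc2] at h1
        simpa using h1
      · exact h1
  have hcT : c (Sum.inr 0) ≠ c (Sum.inr 1) := by
    obtain ⟨e, he1, he2⟩ := hρ3 (Sum.inr 0, true) (Sum.inr 1, true) (by simp) rfl
    have h3 := (hk3 e he2).2
    have h4 := (hρ2 e).trans he1
    rcases e with ⟨x | i, side⟩
    · simp [ky] at he1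
    · rcases hr : ρ (Sum.inr i, side) with ⟨x' | i', side'⟩
      · rw [hr] at h4; simp [ky] at h4
      · rw [hr] at h3 h4 he2
        simp only [ky] at h4 he1
        have e1 : side = true := by simpa using congrArg Prod.snd he1
        have e2 : side' = true := by simpa using congrArg Prod.snd h4
        subst e1 e2
        have hii : i' ≠ i := fun h => he2 (by rw [h])
        simp only at h3
        have hb : ∀ p q : Bool, p = !q → p ≠ q := by decide
        have h5 := hb _ _ h3
        fin_cases i <;> fin_cases i'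
        · exact absurd rfl hii
        · exact h5.symm
        · exact h5
        · exact absurd rfl hii
  let b : A → Bool := fun a => if h : a ∈ F then c (Sum.inl ⟨a, h⟩) else true
  have hb : ∀ e : ↥F, b e.1 = c (Sum.inl e) := by
    intro e
    show (if h : e.1 ∈ F then c (Sum.inl ⟨e.1, h⟩) else true) = _
    rw [dif_pos e.2]
  refine ⟨b, ?_, ?_, ?_⟩
  · intro β U hU hs ht
    let cb : (↥F ⊕ Fin 2) → ℤ := fun x => if c x = β then 1 else 0
    let kb : (↥F ⊕ Fin 2) × Bool → ℤ := fun h => if k h = β then 1 else 0
    have w1 : ∀ x : ↥F ⊕ Fin 2, wt U (ky tail head (x, true)) = if tl tail t x ∈ U then 1 else 0 := by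
      rintro (x | i)
      · rfl
      · show (0 : ℤ) = if t ∈ U then 1 else 0
        rw [if_neg ht]
    have w2 : ∀ x : ↥F ⊕ Fin 2, wt U (ky tail head (x, false)) = -(if hd head s x ∈ U then 1 else 0) := by
      rintro (x | i)
      · rfl
      · show (-1 : ℤ) = -(if s ∈ U then 1 else 0)
        rw [if_pos hs]
    have hsum : ∑ h : (↥F ⊕ Fin 2) × Bool, wt U (ky tail head h) * (kb h - cb h.1) = 0 := by
      let g : (↥F ⊕ Fin 2) × Bool → ℤ := fun h => wt U (ky tail head h) * (kb h - cb h.1)
      have hg : ∀ h, g (ρ h) = - g h := by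
        intro h
        show wt U (ky tail head (ρ h)) * (kb (ρ h) - cb (ρ h).1) = -(wt U (ky tail head h) * (kb h - cb h.1))
        rw [hρ2 h]
        by_cases hh : ρ h = h
        · have e1 : kb h = cb h.1 := by
            show (if k h = β then (1 : ℤ) else 0) = if c h.1 = β then 1 else 0
            rw [hk2 h hh]
          rw [hh, e1]; simp
        · obtain ⟨e1, e2⟩ := hk3 h hh
          have e3 : kb (ρ h) = 1 - kb h := by
            show (if k (ρ h) = β then (1 : ℤ) else 0) = 1 - if k h = β then 1 else 0
            rw [e1]; cases k h <;> cases β <;> simp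
          have e4 : cb (ρ h).1 = 1 - cb h.1 := by
            show (if c (ρ h).1 = β then (1 : ℤ) else 0) = 1 - if c h.1 = β then 1 else 0
            rw [e2]; cases c h.1 <;> cases β <;> simp
          rw [e3, e4]; ring
      let ρe : Equiv.Perm ((↥F ⊕ Fin 2) × Bool) := ⟨ρ, ρ, hρ1, hρ1⟩
      have h1 : ∑ h, g h = ∑ h, g (ρe h) := (Equiv.sum_comp ρe g).symm
      have h2 : ∑ h, g (ρe h) = - ∑ h, g h := by
        rw [← Finset.sum_neg_distrib]
        exact Finset.sum_congr rfl fun h _ => hg h
      show ∑ h, g h = 0
      linarith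
    rw [Fintype.sum_prod_type] at hsum
    simp only [Fintype.sum_bool, w1, w2] at hsum
    have hsplit : ∑ x : ↥F ⊕ Fin 2, ((if tl tail t x ∈ U then (1 : ℤ) else 0) * kb (x, true) -
        (if hd head s x ∈ U then 1 else 0) * kb (x, false)) =
        ∑ x : ↥F ⊕ Fin 2, ((if tl tail t x ∈ U then (1 : ℤ) else 0) -
        (if hd head s x ∈ U then 1 else 0)) * cb x := by
      have : ∑ x : ↥F ⊕ Fin 2, (((if tl tail t x ∈ U then (1 : ℤ) else 0) * kb (x, true) -
        (if hd head s x ∈ U then 1 else 0) * kb (x, false)) - ((if tl tail t x ∈ U then (1 : ℤ) else 0) -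
        (if hd head s x ∈ U then 1 else 0)) * cb x) = 0 := by
        refine Eq.trans (Finset.sum_congr rfl ?_) hsum
        intro x _
        ring
      rw [Finset.sum_sub_distrib] at this
      linarith
    have hnn : 0 ≤ ∑ x : ↥F ⊕ Fin 2, ((if tl tail t x ∈ U then (1 : ℤ) else 0) * kb (x, true) -
        (if hd head s x ∈ U then 1 else 0) * kb (x, false)) := by
      rw [Finset.sum_sub_distrib]
      have e1 : ∑ x : ↥F ⊕ Fin 2, (if hd head s x ∈ U then (1 : ℤ) else 0) * kb (x, false) =
          ∑ x : ↥F ⊕ Fin 2, (if hd head s (θ x) ∈ U then (1 : ℤ) else 0) * kb (θ x, false) :=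
        (Equiv.sum_comp θ (fun x => (if hd head s x ∈ U then (1 : ℤ) else 0) * kb (x, false))).symm
      rw [e1, ← Finset.sum_sub_distrib]
      apply Finset.sum_nonneg
      intro x _
      have e2 : kb (θ x, false) = kb (x, true) := by
        show (if k (θ x, false) = β then (1 : ℤ) else 0) = if k (x, true) = β then 1 else 0
        rw [hk1]
      rw [e2, ← sub_mul]
      apply mul_nonneg
      · have := hU.reach (hθ x)
        by_cases q1 : hd head s (θ x) ∈ U
        · have q2 : tl tail t x ∈ U := by exact_mod_cast this (by exact_mod_cast q1)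
          simp [q1, q2]
        · rw [if_neg q1]; split_ifs <;> norm_num
      · show 0 ≤ (if k (x, true) = β then (1 : ℤ) else 0)
        split_ifs <;> norm_num
    rw [hsplit, Fintype.sum_sum_type] at hnn
    have hT : ∑ i : Fin 2, ((if tl tail t (Sum.inr i : ↥F ⊕ Fin 2) ∈ U then (1 : ℤ) else 0) -
        (if hd head s (Sum.inr i : ↥F ⊕ Fin 2) ∈ U then 1 else 0)) * cb (Sum.inr i) = -1 := by
      rw [Fin.sum_univ_two]
      simp only [tl, hd, ht, hs, if_true, if_false]
      have : cb (Sum.inr 0) + cb (Sum.inr 1) = 1 := by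
        show (if c (Sum.inr 0) = β then (1 : ℤ) else 0) + (if c (Sum.inr 1) = β then (1 : ℤ) else 0) = 1
        revert hcT
        cases c (Sum.inr 0) <;> cases c (Sum.inr 1) <;> cases β <;> simp
      linarith
    rw [hT] at hnn
    have hcross := sum_cross tail head F U hU (fun a => b a = β)
    have e3 : (∑ e : ↥F, if b e.1 = β then
        ((if tail e.1 ∈ U then (1 : ℤ) else 0) - (if head e.1 ∈ U then 1 else 0)) else 0) =
        ∑ e : ↥F, ((if tl tail t (Sum.inl e : ↥F ⊕ Fin 2) ∈ U then (1 : ℤ) else 0) -
        (if hd head s (Sum.inl e : ↥F ⊕ Fin 2) ∈ U then 1 else 0)) * cb (Sum.inl e) := by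
      apply Finset.sum_congr rfl
      intro e _
      show (if b e.1 = β then
        ((if tail e.1 ∈ U then (1 : ℤ) else 0) - (if head e.1 ∈ U then 1 else 0)) else 0) =
        ((if tail e.1 ∈ U then (1 : ℤ) else 0) - (if head e.1 ∈ U then 1 else 0)) *
          (if c (Sum.inl e) = β then (1 : ℤ) else 0)
      rw [hb]
      by_cases q : c (Sum.inl e) = β
      · rw [if_pos q, if_pos q, mul_one]
      · rw [if_neg q, if_neg q, mul_zero]
    rw [e3] at hcross
    have : (1 : ℤ) ≤ (((F.filter (fun a => b a = β)).filter (fun a => tail a ∈ U ∧ head a ∉ U)).card : ℤ) := by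
      rw [hcross]; linarith
    exact_mod_cast this
  · intro a ha a' ha' hne hta β
    obtain ⟨e, he1, he2⟩ := hρ3 (Sum.inl ⟨a, ha⟩, true) (Sum.inl ⟨a', ha'⟩, true)
      (by simp [hne]) (by simp [ky, hta])
    have h3 := (hk3 e he2).2
    have h4 := (hρ2 e).trans he1
    rcases e with ⟨x | i, side⟩
    · rcases hr : ρ (Sum.inl x, side) with ⟨x' | i', side'⟩
      · rw [hr] at h3 h4
        simp only [ky, Prod.mk.injEq] at h4 he1
        obtain ⟨q1, q2⟩ := h4
        obtain ⟨q3, q4⟩ := he1
        subst q2 q4
        simp only [if_true, Option.some.injEq] at q1 q3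
        simp only at h3
        rw [← hb, ← hb] at h3
        by_cases q : b x.1 = β
        · exact ⟨x.1, x.2, q3, q⟩
        · refine ⟨x'.1, x'.2, q1, ?_⟩
          rw [h3]
          revert q
          cases b x.1 <;> cases β <;> simp
      · rw [hr] at h4; simp [ky] at h4
    · simp [ky] at he1
  · intro a ha a' ha' hne hta β
    obtain ⟨e, he1, he2⟩ := hρ3 (Sum.inl ⟨a, ha⟩, false) (Sum.inl ⟨a', ha'⟩, false)
      (by simp [hne]) (by simp [ky, hta])
    have h3 := (hk3 e he2).2
    have h4 := (hρ2 e).trans he1
    rcases e with ⟨x | i, side⟩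
    · rcases hr : ρ (Sum.inl x, side) with ⟨x' | i', side'⟩
      · rw [hr] at h3 h4
        simp only [ky, Prod.mk.injEq] at h4 he1
        obtain ⟨q1, q2⟩ := h4
        obtain ⟨q3, q4⟩ := he1
        subst q2 q4
        simp only [Bool.false_eq_true, if_false, Option.some.injEq] at q1 q3
        simp only at h3
        rw [← hb, ← hb] at h3
        by_cases q : b x.1 = β
        · exact ⟨x.1, x.2, q3, q⟩
        · refine ⟨x'.1, x'.2, q1, ?_⟩
          rw [h3]
          revert q
          cases b x.1 <;> cases β <;> simp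
      · rw [hr] at h4; simp [ky] at h4
    · simp [ky] at he1

/-- one unit of flow can be split off -/
theorem peel (tail head : A → V) (s t : V) (k : ℕ) (F : Finset A)
    (hF : Cov tail head s t (k + 1) F) :
    ∃ b : A → Bool, Cov tail head s t 1 (F.filter (fun a => b a = true)) ∧
      Cov tail head s t k (F.filter (fun a => b a = false)) := by
  classical
  obtain ⟨θ, hθ⟩ := flow tail head s t (k + 1) F hF
  let x0 : ↥F ⊕ Fin (k + 1) := Sum.inr 0
  have hex : ∃ n : ℕ, 0 < n ∧ ((θ ^ n : Equiv.Perm _) x0).isRight = true := by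
    refine ⟨orderOf (θ : Equiv.Perm (↥F ⊕ Fin (k + 1))), orderOf_pos _, ?_⟩
    rw [pow_orderOf_eq_one]; rfl
  let n := Nat.find hex
  have hn0 : 0 < n := (Nat.find_spec hex).1
  have hnr : ((θ ^ n : Equiv.Perm _) x0).isRight = true := (Nat.find_spec hex).2
  have hmin : ∀ m, 0 < m → m < n → ¬ ((θ ^ m : Equiv.Perm _) x0).isRight = true := by
    intro m hm hmn h
    exact Nat.find_min hex hmn ⟨hm, h⟩
  let orb : ℕ → (↥F ⊕ Fin (k + 1)) := fun m => (θ ^ m : Equiv.Perm _) x0
  have horb : ∀ m, θ (orb m) = orb (m + 1) := by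
    intro m
    show θ ((θ ^ m : Equiv.Perm _) x0) = (θ ^ (m + 1) : Equiv.Perm _) x0
    rw [pow_succ', Equiv.Perm.mul_apply]
  have hinj : Set.InjOn orb (Finset.range n : Set ℕ) := by
    have aux : ∀ a b : ℕ, a < b → b < n → orb a ≠ orb b := by
      intro a b hab hbn h
      have h1 : (θ ^ (b - a) : Equiv.Perm _) x0 = x0 := by
        have h2 : (θ ^ a : Equiv.Perm _) ((θ ^ (b - a) : Equiv.Perm _) x0) = (θ ^ a : Equiv.Perm _) x0 := by
          rw [← Equiv.Perm.mul_apply, ← pow_add]
          have : a + (b - a) = b := by omega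
          rw [this]; exact h.symm
        exact (θ ^ a : Equiv.Perm _).injective h2
      exact hmin (b - a) (by omega) (by omega) (by rw [h1]; rfl)
    intro a ha b hb h
    have ha' : a < n := by simpa using ha
    have hb' : b < n := by simpa using hb
    rcases lt_trichotomy a b with h1 | h1 | h1
    · exact absurd h (aux a b h1 hb')
    · exact h1
    · exact absurd h.symm (aux b a h1 ha')
  let Q : Finset (↥F ⊕ Fin (k + 1)) := (Finset.range n).image orb
  have hQ0 : ∀ i : Fin (k + 1), (Sum.inr i ∈ Q ↔ i = 0) := by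
    intro i
    constructor
    · intro h
      obtain ⟨m, hm, hm2⟩ := Finset.mem_image.1 h
      have hm' : m < n := by simpa using hm
      rcases Nat.eq_zero_or_pos m with h0 | h0
      · rw [h0] at hm2
        have : (Sum.inr 0 : ↥F ⊕ Fin (k + 1)) = Sum.inr i := hm2
        exact (Sum.inr.inj this).symm
      · exact absurd (by show (orb m).isRight = true; rw [hm2]; rfl) (hmin m h0 hm')
    · intro h
      rw [h]
      exact Finset.mem_image.2 ⟨0, by simpa using hn0, rfl⟩
  let b : A → Bool := fun a => decide (∃ h : a ∈ F, Sum.inl ⟨a, h⟩ ∈ Q)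
  have hb : ∀ e : ↥F, (b e.1 = true ↔ Sum.inl e ∈ Q) := by
    intro e
    simp only [b, decide_eq_true_eq]
    exact ⟨fun ⟨_, h⟩ => h, fun h => ⟨e.2, h⟩⟩
  have main : ∀ U : Finset V, Cl tail head (U : Set V) → s ∈ U → t ∉ U →
      (1 : ℤ) ≤ (((F.filter (fun a => b a = true)).filter (fun a => tail a ∈ U ∧ head a ∉ U)).card : ℤ) ∧
      (k : ℤ) ≤ (((F.filter (fun a => b a = false)).filter (fun a => tail a ∈ U ∧ head a ∉ U)).card : ℤ) := by
    intro U hU hs ht
    let Tt : (↥F ⊕ Fin (k + 1)) → ℤ := fun x => if tl tail t x ∈ U then 1 else 0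
    let Hh : (↥F ⊕ Fin (k + 1)) → ℤ := fun x => if hd head s x ∈ U then 1 else 0
    have hD : ∀ x, 0 ≤ Tt x - Hh (θ x) := by
      intro x
      show (0 : ℤ) ≤ (if tl tail t x ∈ U then 1 else 0) - (if hd head s (θ x) ∈ U then 1 else 0)
      have := hU.reach (hθ x)
      by_cases q1 : hd head s (θ x) ∈ U
      · have q2 : tl tail t x ∈ U := by exact_mod_cast this (by exact_mod_cast q1)
        simp [q1, q2]
      · rw [if_neg q1]; split_ifs <;> norm_num
    have hterm : ∀ x : ↥F ⊕ Fin (k + 1), x.isRight = true → Hh x = 1 := by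
      rintro (x | i) h
      · simp at h
      · show (if s ∈ U then (1 : ℤ) else 0) = 1
        rw [if_pos hs]
    have hQH : ∑ x ∈ Q, Hh x = ∑ x ∈ Q, Hh (θ x) := by
      rw [Finset.sum_image hinj, Finset.sum_image hinj]
      simp only [horb]
      have h1 := Finset.sum_range_succ (fun m => Hh (orb m)) n
      have h2 := Finset.sum_range_succ' (fun m => Hh (orb m)) n
      have h3 : Hh (orb 0) = 1 := hterm _ rfl
      have h4 : Hh (orb n) = 1 := hterm _ hnr
      rw [h3] at h2
      rw [h4] at h1
      linarith
    have hall : ∑ x, Hh x = ∑ x, Hh (θ x) := (Equiv.sum_comp θ Hh).symm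
    have s1 : 0 ≤ ∑ x ∈ Q, (Tt x - Hh x) := by
      rw [Finset.sum_sub_distrib, hQH, ← Finset.sum_sub_distrib]
      exact Finset.sum_nonneg fun x _ => hD x
    have s2 : 0 ≤ ∑ x ∈ Qᶜ, (Tt x - Hh x) := by
      have h1 : ∑ x ∈ Qᶜ, Hh x = ∑ x ∈ Qᶜ, Hh (θ x) := by
        have e1 := Finset.sum_add_sum_compl Q Hh
        have e2 := Finset.sum_add_sum_compl Q (fun x => Hh (θ x))
        linarith
      rw [Finset.sum_sub_distrib, h1, ← Finset.sum_sub_distrib]
      exact Finset.sum_nonneg fun x _ => hD x
    have c1 := sum_cross tail head F U hU (fun a => b a = true)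
    have c2 := sum_cross tail head F U hU (fun a => b a = false)
    have f1 : ∑ x ∈ Q, (Tt x - Hh x) =
        (∑ e : ↥F, if b e.1 = true then
        ((if tail e.1 ∈ U then (1 : ℤ) else 0) - (if head e.1 ∈ U then 1 else 0)) else 0) - 1 := by
      have : ∑ x ∈ Q, (Tt x - Hh x) = ∑ x, if x ∈ Q then (Tt x - Hh x) else 0 := by
        rw [← Finset.sum_filter]; congr 1; ext x; simp
      rw [this, Fintype.sum_sum_type]
      have g1 : ∑ i : Fin (k + 1), (if (Sum.inr i : ↥F ⊕ Fin (k + 1)) ∈ Q then
          (Tt (Sum.inr i) - Hh (Sum.inr i)) else 0) = -1 := by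
        rw [Fin.sum_univ_succ]
        have q0 : (Sum.inr 0 : ↥F ⊕ Fin (k + 1)) ∈ Q := (hQ0 0).2 rfl
        have qs : ∀ i : Fin k, (Sum.inr i.succ : ↥F ⊕ Fin (k + 1)) ∉ Q := by
          intro i h
          exact absurd ((hQ0 _).1 h) (Fin.succ_ne_zero i)
        simp only [q0, qs, if_true, if_false, Finset.sum_const_zero, add_zero]
        show (if t ∈ U then (1 : ℤ) else 0) - (if s ∈ U then 1 else 0) = -1
        rw [if_neg ht, if_pos hs]; norm_num
      rw [g1]
      have g2 : ∑ e : ↥F, (if (Sum.inl e : ↥F ⊕ Fin (k + 1)) ∈ Q then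
          (Tt (Sum.inl e) - Hh (Sum.inl e)) else 0) = (∑ e : ↥F, if b e.1 = true then
        ((if tail e.1 ∈ U then (1 : ℤ) else 0) - (if head e.1 ∈ U then 1 else 0)) else 0) := by
        apply Finset.sum_congr rfl
        intro e _
        by_cases q : b e.1 = true
        · rw [if_pos q, if_pos ((hb e).1 q)]; rfl
        · rw [if_neg q, if_neg (fun h => q ((hb e).2 h))]
      rw [g2]; ring
    have f2 : ∑ x ∈ Qᶜ, (Tt x - Hh x) =
        (∑ e : ↥F, if b e.1 = false then
        ((if tail e.1 ∈ U then (1 : ℤ) else 0) - (if head e.1 ∈ U then 1 else 0)) else 0) - k := by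
      have : ∑ x ∈ Qᶜ, (Tt x - Hh x) = ∑ x, if x ∈ Q then 0 else (Tt x - Hh x) := by
        have e1 : ∑ x ∈ Qᶜ, (Tt x - Hh x) = ∑ x, if x ∈ Qᶜ then (Tt x - Hh x) else 0 := by
          rw [← Finset.sum_filter]; congr 1; ext x; simp
        rw [e1]
        apply Finset.sum_congr rfl
        intro x _
        by_cases q : x ∈ Q <;> simp [q]
      rw [this, Fintype.sum_sum_type]
      have g1 : ∑ i : Fin (k + 1), (if (Sum.inr i : ↥F ⊕ Fin (k + 1)) ∈ Q then 0 else
          (Tt (Sum.inr i) - Hh (Sum.inr i))) = -k := by
        rw [Fin.sum_univ_succ]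
        have q0 : (Sum.inr 0 : ↥F ⊕ Fin (k + 1)) ∈ Q := (hQ0 0).2 rfl
        have qs : ∀ i : Fin k, (Sum.inr i.succ : ↥F ⊕ Fin (k + 1)) ∉ Q := by
          intro i h
          exact absurd ((hQ0 _).1 h) (Fin.succ_ne_zero i)
        have qv : ∀ i : Fin k, Tt (Sum.inr i.succ) - Hh (Sum.inr i.succ) = -1 := by
          intro i
          show (if t ∈ U then (1 : ℤ) else 0) - (if s ∈ U then 1 else 0) = -1
          rw [if_neg ht, if_pos hs]; norm_num
        simp only [q0, qs, if_true, if_false, qv, Finset.sum_const, Finset.card_univ,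
          Fintype.card_fin, zero_add]
        simp
      rw [g1]
      have g2 : ∑ e : ↥F, (if (Sum.inl e : ↥F ⊕ Fin (k + 1)) ∈ Q then 0 else
          (Tt (Sum.inl e) - Hh (Sum.inl e))) = (∑ e : ↥F, if b e.1 = false then
        ((if tail e.1 ∈ U then (1 : ℤ) else 0) - (if head e.1 ∈ U then 1 else 0)) else 0) := by
        apply Finset.sum_congr rfl
        intro e _
        by_cases q : b e.1 = true
        · rw [if_pos ((hb e).1 q), if_neg (by rw [q]; decide)]
        · rw [if_neg (fun h => q ((hb e).2 h)), if_pos (by simpa using q)]; rfl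
      rw [g2]; ring
    rw [c1, c2]
    constructor
    · rw [f1] at s1; linarith
    · rw [f2] at s2; linarith
  refine ⟨b, ?_, ?_⟩
  · intro U hU hs ht
    exact_mod_cast (main U hU hs ht).1
  · intro U hU hs ht
    exact_mod_cast (main U hU hs ht).2

/-- initial partition: all classes cover the cuts separating `s` from `t` -/
theorem initial (tail head : A → V) (s t : V) (k : ℕ) :
    ∀ F : Finset A, Cov tail head s t (k + 1) F →
      ∃ c : A → Fin (k + 1), ∀ i, Cov tail head s t 1 (F.filter (fun a => c a = i)) := by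
  induction k with
  | zero =>
    intro F hF
    refine ⟨fun _ => 0, fun i => ?_⟩
    have : F.filter (fun _ => (0 : Fin 1) = i) = F := by
      apply Finset.filter_true_of_mem
      intro a _; exact (Subsingleton.elim _ _)
    rw [this]; exact hF
  | succ k ih =>
    intro F hF
    obtain ⟨b, hb1, hb2⟩ := peel tail head s t (k + 1) F hF
    obtain ⟨c, hc⟩ := ih _ hb2
    refine ⟨fun a => if b a = true then 0 else (c a).succ, fun i => ?_⟩
    rcases Fin.eq_zero_or_eq_succ i with rfl | ⟨j, rfl⟩
    · have : F.filter (fun a => (if b a = true then (0 : Fin (k + 1 + 1)) else (c a).succ) = 0) =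
          F.filter (fun a => b a = true) := by
        apply Finset.filter_congr
        intro a _
        by_cases q : b a = true
        · simp [q]
        · simp [q, Fin.succ_ne_zero]
      rw [this]; exact hb1
    · have : F.filter (fun a => (if b a = true then (0 : Fin (k + 1 + 1)) else (c a).succ) = j.succ) =
          (F.filter (fun a => b a = false)).filter (fun a => c a = j) := by
        rw [Finset.filter_filter]
        apply Finset.filter_congr
        intro a _
        by_cases q : b a = true
        · simp [q, (Fin.succ_ne_zero j).symm]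
        · have q' : b a = false := by simpa using q
          simp [q']
      rw [this]; exact hc j

/-- the end of an arc on a given side -/
def en (tail head : A → V) (σ : Bool) (a : A) : V := if σ then tail a else head a

/-- number of colours of arcs of `F` having end `v` on side `σ` -/
def nc {k : ℕ} (tail head : A → V) (F : Finset A) (c : A → Fin k) (v : V) (σ : Bool) : ℕ :=
  ((F.filter (fun a => en tail head σ a = v)).image c).card

theorem improve {k : ℕ} (tail head : A → V) (s t : V) (F : Finset A) (c : A → Fin k)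
    (hc : ∀ i, Cov tail head s t 1 (F.filter (fun a => c a = i)))
    (v : V) (σ : Bool) (j : Fin k) (hj : ∀ a ∈ F, en tail head σ a = v → c a ≠ j)
    (hcard : k ≤ (F.filter (fun a => en tail head σ a = v)).card) :
    ∃ c' : A → Fin k, (∀ i, Cov tail head s t 1 (F.filter (fun a => c' a = i))) ∧
      (∀ w τ, nc tail head F c w τ ≤ nc tail head F c' w τ) ∧
      nc tail head F c v σ < nc tail head F c' v σ := by
  classical
  -- a colour used twice at `v`
  obtain ⟨a1, ha1, a2, ha2, hne, hcc⟩ : ∃ a1 ∈ F.filter (fun a => en tail head σ a = v),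
      ∃ a2 ∈ F.filter (fun a => en tail head σ a = v), a1 ≠ a2 ∧ c a1 = c a2 := by
    apply Finset.exists_ne_map_eq_of_card_lt_of_maps_to (t := univ.erase j)
    · rw [Finset.card_erase_of_mem (mem_univ j), Finset.card_univ, Fintype.card_fin]
      have : 0 < k := by have := j.2; omega
      omega
    · intro a ha
      have ha' := Finset.mem_filter.1 (Finset.mem_coe.1 ha)
      exact Finset.mem_coe.2 (Finset.mem_erase.2 ⟨hj a ha'.1 ha'.2, mem_univ _⟩)
  set i := c a1 with hi
  rw [Finset.mem_filter] at ha1 ha2
  have hij : i ≠ j := hj a1 ha1.1 ha1.2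
  let F' : Finset A := F.filter (fun a => c a = i ∨ c a = j)
  have hF' : Cov tail head s t 2 F' := by
    intro U hU hs ht
    have h1 := hc i U hU hs ht
    have h2 := hc j U hU hs ht
    have hd : Disjoint ((F.filter (fun a => c a = i)).filter (fun a => tail a ∈ U ∧ head a ∉ U))
        ((F.filter (fun a => c a = j)).filter (fun a => tail a ∈ U ∧ head a ∉ U)) := by
      rw [Finset.disjoint_left]
      intro a h3 h4
      rw [Finset.mem_filter, Finset.mem_filter] at h3 h4
      exact hij (h3.1.2.symm.trans h4.1.2)
    have hsub : (F.filter (fun a => c a = i)).filter (fun a => tail a ∈ U ∧ head a ∉ U) ∪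
        (F.filter (fun a => c a = j)).filter (fun a => tail a ∈ U ∧ head a ∉ U) ⊆
        F'.filter (fun a => tail a ∈ U ∧ head a ∉ U) := by
      intro a ha
      simp only [F', Finset.mem_union, Finset.mem_filter] at ha ⊢
      tauto
    have := Finset.card_le_card hsub
    rw [Finset.card_union_of_disjoint hd] at this
    omega
  obtain ⟨b, hb1, hb2, hb3⟩ := split tail head s t F' hF'
  let c' : A → Fin k := fun a => if a ∈ F' then (if b a = true then i else j) else c a
  have hbal : ∀ (τ : Bool) (x y : A), x ∈ F' → y ∈ F' → x ≠ y → en tail head τ x = en tail head τ y →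
      ∀ β, ∃ z ∈ F', en tail head τ z = en tail head τ x ∧ b z = β := by
    intro τ x y hx hy hxy he β
    cases τ
    · exact hb3 x hx y hy hxy he β
    · exact hb2 x hx y hy hxy he β
  have hmem : ∀ a, a ∈ F' ↔ a ∈ F ∧ (c a = i ∨ c a = j) := by
    intro a; exact Finset.mem_filter
  -- number of colours
  have hnum : ∀ w τ, (nc tail head F c w τ ≤ nc tail head F c' w τ) := by
    intro w τ
    let S := F.filter (fun a => en tail head τ a = w)
    let S1 := S.filter (fun a => a ∈ F')
    let S2 := S.filter (fun a => a ∉ F')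
    have hS : S = S1 ∪ S2 := (Finset.filter_union_filter_not_eq _ _).symm
    have hc2 : S2.image c' = S2.image c := by
      apply Finset.image_congr
      intro a ha
      have : a ∉ F' := (Finset.mem_filter.1 (Finset.mem_coe.1 ha)).2
      show (if a ∈ F' then _ else c a) = c a
      rw [if_neg this]
    have dis : ∀ d : A → Fin k, (∀ a ∈ S1, d a = i ∨ d a = j) → Disjoint (S1.image d) (S2.image c) := by
      intro d hd
      rw [Finset.disjoint_left]
      intro q h1 h2
      obtain ⟨x, hx, rfl⟩ := Finset.mem_image.1 h1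
      obtain ⟨y, hy, hxy⟩ := Finset.mem_image.1 h2
      have hy' := Finset.mem_filter.1 hy
      apply hy'.2
      rw [hmem]
      refine ⟨(Finset.mem_filter.1 hy'.1).1, ?_⟩
      rw [hxy]; exact hd x hx
    have d1 : ∀ a ∈ S1, c a = i ∨ c a = j := by
      intro a ha
      exact ((hmem a).1 (Finset.mem_filter.1 ha).2).2
    have d2 : ∀ a ∈ S1, c' a = i ∨ c' a = j := by
      intro a ha
      have : a ∈ F' := (Finset.mem_filter.1 ha).2
      show (if a ∈ F' then (if b a = true then i else j) else c a) = i ∨
        (if a ∈ F' then (if b a = true then i else j) else c a) = j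
      rw [if_pos this]
      by_cases q : b a = true <;> simp [q]
    have n1 : nc tail head F c w τ = (S1.image c).card + (S2.image c).card := by
      show (S.image c).card = _
      rw [hS, Finset.image_union, Finset.card_union_of_disjoint (dis c d1)]
    have n2 : nc tail head F c' w τ = (S1.image c').card + (S2.image c).card := by
      show (S.image c').card = _
      rw [hS, Finset.image_union, hc2, Finset.card_union_of_disjoint (dis c' d2)]
    rw [n1, n2]
    apply Nat.add_le_add_right
    rcases Nat.lt_or_ge 1 S1.card with h | h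
    · -- both colours present
      obtain ⟨x, hx, y, hy, hxy⟩ := Finset.one_lt_card.1 h
      have hx' := Finset.mem_filter.1 hx
      have hy' := Finset.mem_filter.1 hy
      have ex : en tail head τ x = w := (Finset.mem_filter.1 hx'.1).2
      have ey : en tail head τ y = w := (Finset.mem_filter.1 hy'.1).2
      have hsub : ({i, j} : Finset (Fin k)) ⊆ S1.image c' := by
        intro q hq
        rw [Finset.mem_insert, Finset.mem_singleton] at hq
        have : ∀ β : Bool, (if β = true then i else j) ∈ S1.image c' := by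
          intro β
          obtain ⟨z, hz1, hz2, hz3⟩ := hbal τ x y hx'.2 hy'.2 hxy (ex.trans ey.symm) β
          refine Finset.mem_image.2 ⟨z, ?_, ?_⟩
          · refine Finset.mem_filter.2 ⟨Finset.mem_filter.2 ⟨((hmem z).1 hz1).1, hz2.trans ex⟩, hz1⟩
          · show (if z ∈ F' then (if b z = true then i else j) else c z) = _
            rw [if_pos hz1, hz3]
        rcases hq with rfl | rfl
        · exact this true
        · exact this false
      have hsup : S1.image c ⊆ ({i, j} : Finset (Fin k)) := by
        intro q hq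
        obtain ⟨x, hx, rfl⟩ := Finset.mem_image.1 hq
        rw [Finset.mem_insert, Finset.mem_singleton]
        exact d1 x hx
      exact (Finset.card_le_card hsup).trans (Finset.card_le_card hsub)
    · rcases Finset.eq_empty_or_nonempty S1 with h0 | h0
      · rw [h0]; simp
      · have g1 : (S1.image c).card ≤ 1 := Finset.card_image_le.trans h
        have g2 : 0 < (S1.image c').card := Finset.card_pos.2 (h0.image _)
        omega
  refine ⟨c', ?_, hnum, ?_⟩
  · intro q
    by_cases q1 : q = i
    · have : F.filter (fun a => c' a = q) = F'.filter (fun a => b a = true) := by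
        ext a
        simp only [Finset.mem_filter, c']
        by_cases m : a ∈ F'
        · have m' := (hmem a).1 m
          by_cases r : b a = true
          · simp [m, r, q1, m'.1]
          · simp [m, r, q1, hij.symm]
        · simp only [m, if_false, false_and, iff_false, not_and]
          intro haF hcq
          exact m ((hmem a).2 ⟨haF, Or.inl (hcq.trans q1)⟩)
      rw [this]; exact hb1 true
    · by_cases q2 : q = j
      · have : F.filter (fun a => c' a = q) = F'.filter (fun a => b a = false) := by
          ext a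
          simp only [Finset.mem_filter, c']
          by_cases m : a ∈ F'
          · have m' := (hmem a).1 m
            by_cases r : b a = true
            · simp [m, r, q2, hij]
            · simp [m, r, q2, m'.1]
          · simp only [m, if_false, false_and, iff_false, not_and]
            intro haF hcq
            exact m ((hmem a).2 ⟨haF, Or.inr (hcq.trans q2)⟩)
        rw [this]; exact hb1 false
      · have : F.filter (fun a => c' a = q) = F.filter (fun a => c a = q) := by
          apply Finset.filter_congr
          intro a ha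
          simp only [c']
          by_cases m : a ∈ F'
          · have m' := (hmem a).1 m
            rw [if_pos m]
            constructor
            · intro h
              by_cases r : b a = true
              · rw [if_pos r] at h; exact absurd h.symm q1
              · rw [if_neg r] at h; exact absurd h.symm q2
            · intro h
              rcases m'.2 with h1 | h1
              · exact absurd (h.symm.trans h1) q1
              · exact absurd (h.symm.trans h1) q2
          · rw [if_neg m]
        rw [this]; exact hc q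
  · -- strict improvement at `v`
    refine lt_of_le_of_ne (hnum v σ) ?_
    intro heq
    let S := F.filter (fun a => en tail head σ a = v)
    have hsub : S.image c ⊆ S.image c' := by
      intro q hq
      obtain ⟨x, hx, rfl⟩ := Finset.mem_image.1 hq
      have hxS := Finset.mem_filter.1 hx
      by_cases m : x ∈ F'
      · have m' := (hmem x).1 m
        have hxi : c x = i := by
          rcases m'.2 with h | h
          · exact h
          · exact absurd h (hj x hxS.1 hxS.2)
        have f1 : a1 ∈ F' := (hmem a1).2 ⟨ha1.1, Or.inl rfl⟩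
        have f2 : a2 ∈ F' := (hmem a2).2 ⟨ha2.1, Or.inl hcc.symm⟩
        obtain ⟨z, hz1, hz2, hz3⟩ := hbal σ a1 a2 f1 f2 hne (ha1.2.trans ha2.2.symm) true
        refine Finset.mem_image.2 ⟨z, Finset.mem_filter.2 ⟨((hmem z).1 hz1).1, hz2.trans ha1.2⟩, ?_⟩
        show (if z ∈ F' then (if b z = true then i else j) else c z) = c x
        rw [if_pos hz1, hz3, hxi]; rfl
      · refine Finset.mem_image.2 ⟨x, hx, ?_⟩
        show (if x ∈ F' then (if b x = true then i else j) else c x) = c x
        rw [if_neg m]
    have hjn : j ∉ S.image c := by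
      intro h
      obtain ⟨x, hx, hxj⟩ := Finset.mem_image.1 h
      have hxS := Finset.mem_filter.1 hx
      exact hj x hxS.1 hxS.2 hxj
    have hjm : j ∈ S.image c' := by
      have f1 : a1 ∈ F' := (hmem a1).2 ⟨ha1.1, Or.inl rfl⟩
      have f2 : a2 ∈ F' := (hmem a2).2 ⟨ha2.1, Or.inl hcc.symm⟩
      obtain ⟨z, hz1, hz2, hz3⟩ := hbal σ a1 a2 f1 f2 hne (ha1.2.trans ha2.2.symm) false
      refine Finset.mem_image.2 ⟨z, Finset.mem_filter.2 ⟨((hmem z).1 hz1).1, hz2.trans ha1.2⟩, ?_⟩
      show (if z ∈ F' then (if b z = true then i else j) else c z) = j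
      rw [if_pos hz1, hz3]; rfl
    have hlt : (S.image c).card < (S.image c').card :=
      Finset.card_lt_card ⟨hsub, fun h => hjn (h hjm)⟩
    exact absurd heq (ne_of_lt hlt)

/-- a best colouring -/
theorem best {k : ℕ} (tail head : A → V) (s t : V) (F : Finset A)
    (hF : Cov tail head s t (k + 1) F) :
    ∃ c : A → Fin (k + 1), (∀ i, Cov tail head s t 1 (F.filter (fun a => c a = i))) ∧
      ∀ v σ, k + 1 ≤ (F.filter (fun a => en tail head σ a = v)).card →
        ∀ j, ∃ a ∈ F, en tail head σ a = v ∧ c a = j := by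
  classical
  obtain ⟨c0, hc0⟩ := initial tail head s t k F hF
  let good : Finset (A → Fin (k + 1)) :=
    univ.filter (fun c => ∀ i, Cov tail head s t 1 (F.filter (fun a => c a = i)))
  obtain ⟨c, hc, hmax⟩ := Finset.exists_max_image good
    (fun c => ∑ p : V × Bool, nc tail head F c p.1 p.2)
    ⟨c0, Finset.mem_filter.2 ⟨mem_univ _, hc0⟩⟩
  have hcg := (Finset.mem_filter.1 hc).2
  refine ⟨c, hcg, ?_⟩
  intro v σ hcard j
  by_contra hcon
  push Not at hcon
  obtain ⟨c', h1, h2, h3⟩ := improve tail head s t F c hcg v σ j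
    (fun a ha he => hcon a ha he) hcard
  have hle := hmax c' (Finset.mem_filter.2 ⟨mem_univ _, h1⟩)
  have hlt : ∑ p : V × Bool, nc tail head F c p.1 p.2 < ∑ p : V × Bool, nc tail head F c' p.1 p.2 :=
    Finset.sum_lt_sum (fun p _ => h2 p.1 p.2) ⟨(v, σ), mem_univ _, h3⟩
  exact absurd hle (not_le.2 hlt)

end Core

/-- super-source: a source from which every sink is reachable -/
def SuperSource (tail head : A → V) (s : V) : Prop :=
  IsSource head s ∧ ∀ v, IsSink tail v → Reach tail head s v

/-- super-sink: a sink reachable from every source -/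
def SuperSink (tail head : A → V) (t : V) : Prop :=
  IsSink tail t ∧ ∀ v, IsSource head v → Reach tail head v t

theorem main [Finite V] [Finite A] (tail head : A → V) (s t : V)
    (hs : SuperSource tail head s) (ht : SuperSink tail head t)
    (hi : ∀ v, ¬ IsSource head v → ¬ IsSink tail v → Reach tail head s v ∧ Reach tail head v t)
    (k : ℕ) (hk : 1 ≤ k) (F : Set A) (hF : IsKDijoin tail head k F) :
    ∃ P : Fin k → Set A, (∀ i, IsKDijoin tail head 1 (P i)) ∧
      (∀ i j, i ≠ j → Disjoint (P i) (P j)) ∧ (⋃ i, P i) = F := by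
  classical
  suffices h : ∃ c : A → Fin k, ∀ i, IsKDijoin tail head 1 {a | a ∈ F ∧ c a = i} by
    obtain ⟨c, hc⟩ := h
    refine ⟨fun i => {a | a ∈ F ∧ c a = i}, hc, ?_, ?_⟩
    · intro i j hij
      rw [Set.disjoint_left]
      rintro a ⟨_, h1⟩ ⟨_, h2⟩
      exact hij (h1.symm.trans h2)
    · ext a
      simp
  have : Fintype V := Fintype.ofFinite V
  have : Fintype A := Fintype.ofFinite A
  rcases subsingleton_or_nontrivial V with hsub | hnt
  · refine ⟨fun _ => ⟨0, hk⟩, fun i U hU => ?_⟩
    exfalso
    apply hU.2.1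
    obtain ⟨x, hx⟩ := hU.1
    ext y
    simp only [Set.mem_univ, iff_true]
    rw [Subsingleton.elim y x]; exact hx
  obtain ⟨m, rfl⟩ : ∃ m, k = m + 1 := ⟨k - 1, by omega⟩
  let F' : Finset A := univ.filter (fun a => a ∈ F)
  have hF'm : ∀ a, a ∈ F' ↔ a ∈ F := by intro a; simp [F']
  -- non-sources are reachable from s, non-sinks reach t
  have hns : ∀ v, ¬ IsSource head v → Reach tail head s v := by
    intro v hv
    by_cases h : IsSink tail v
    · exact hs.2 v h
    · exact (hi v hv h).1
  have hnt' : ∀ v, ¬ IsSink tail v → Reach tail head v t := by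
    intro v hv
    by_cases h : IsSource head v
    · exact ht.2 v h
    · exact (hi v h hv).2
  have hcard : ∀ U : Finset V, ({a | a ∈ F ∧ tail a ∈ (U : Set V) ∧ head a ∉ (U : Set V)} : Set A).ncard
      = (F'.filter (fun a => tail a ∈ U ∧ head a ∉ U)).card := by
    intro U
    rw [← Set.ncard_coe_finset]
    congr 1
    ext a
    simp [F']
  have hcov : Cov tail head s t (m + 1) F' := by
    intro U hU hsU htU
    rw [← hcard]
    apply hF
    refine ⟨⟨s, by exact_mod_cast hsU⟩, ?_, hU⟩
    intro h
    apply htU
    have : t ∈ (U : Set V) := by rw [h]; trivial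
    exact_mod_cast this
  obtain ⟨c, hc1, hc2⟩ := best tail head s t F' hcov
  -- sources
  have hsrc : ∀ u, IsSource head u → m + 1 ≤ (F'.filter (fun a => en tail head true a = u)).card := by
    intro u hu
    obtain ⟨w, hw⟩ := exists_ne u
    have h1 : IsShore tail head (({u} : Finset V) : Set V) := by
      refine ⟨⟨u, by simp⟩, ?_, ?_⟩
      · intro h
        have : w ∈ (({u} : Finset V) : Set V) := by rw [h]; trivial
        exact hw (by simpa using this)
      · intro a ha
        exact absurd (by simpa using ha) (hu a)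
    have h2 := hF _ h1
    rw [hcard] at h2
    refine h2.trans (Finset.card_le_card ?_)
    intro a ha
    rw [Finset.mem_filter] at ha ⊢
    exact ⟨ha.1, by simpa [en] using ha.2.1⟩
  have hsnk : ∀ w, IsSink tail w → m + 1 ≤ (F'.filter (fun a => en tail head false a = w)).card := by
    intro w hw
    obtain ⟨u, hu⟩ := exists_ne w
    have h1 : IsShore tail head ((univ.erase w : Finset V) : Set V) := by
      refine ⟨⟨u, by simp [hu]⟩, ?_, ?_⟩
      · intro h
        have : w ∈ ((univ.erase w : Finset V) : Set V) := by rw [h]; trivial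
        simp at this
      · intro a _
        simp [hw a]
    have h2 := hF _ h1
    rw [hcard] at h2
    refine h2.trans (Finset.card_le_card ?_)
    intro a ha
    rw [Finset.mem_filter] at ha ⊢
    refine ⟨ha.1, ?_⟩
    have := ha.2.2
    simp at this
    simpa [en] using this
  refine ⟨c, ?_⟩
  intro i U hU
  have hcl : Cl tail head U := hU.2.2
  rw [Nat.succ_le_iff, Set.ncard_pos (Set.toFinite _)]
  by_cases q1 : s ∈ U
  · by_cases q2 : t ∈ U
    · -- complement consists of sinks
      obtain ⟨w, hw⟩ := (Set.ne_univ_iff_exists_notMem U).1 hU.2.1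
      have hwk : IsSink tail w := by
        by_contra h
        exact hw (hcl.reach (hnt' w h) q2)
      obtain ⟨a, ha, he, hci⟩ := hc2 w false (hsnk w hwk) i
      have he' : head a = w := by simpa [en] using he
      refine ⟨a, ⟨(hF'm a).1 ha, hci⟩, ?_, ?_⟩
      · exact hcl.reach (hnt' (tail a) (fun h => h a rfl)) q2
      · rw [he']; exact hw
    · let Uf : Finset V := univ.filter (fun v => v ∈ U)
      have hUf : ∀ v, v ∈ Uf ↔ v ∈ U := by intro v; simp [Uf]
      have hcl' : Cl tail head (Uf : Set V) := by
        intro a ha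
        have h1 : head a ∈ Uf := by exact_mod_cast ha
        have : tail a ∈ Uf := (hUf _).2 (hcl a ((hUf _).1 h1))
        exact_mod_cast this
      have := hc1 i Uf hcl' ((hUf s).2 q1) (fun h => q2 ((hUf t).1 h))
      obtain ⟨a, ha⟩ := Finset.card_pos.1 this
      rw [Finset.mem_filter, Finset.mem_filter] at ha
      exact ⟨a, ⟨(hF'm a).1 ha.1.1, ha.1.2⟩, (hUf _).1 ha.2.1, fun h => ha.2.2 ((hUf _).2 h)⟩
  · -- U consists of sources
    obtain ⟨u, hu⟩ := hU.1
    have hus : IsSource head u := by
      by_contra h
      exact q1 (hcl.reach (hns u h) hu)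
    obtain ⟨a, ha, he, hci⟩ := hc2 u true (hsrc u hus) i
    have he' : tail a = u := by simpa [en] using he
    refine ⟨a, ⟨(hF'm a).1 ha, hci⟩, ?_, ?_⟩
    · rw [he']; exact hu
    · intro h
      exact q1 (hcl.reach (hns (head a) (fun h' => h' a rfl)) h)

end Pool.Agent.H968R4
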