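import Mathlib
import Pool.Agent.H968R4.Dijoin

set_option autoImplicit false

open Finset

namespace Pool.Agent.H968R4

section Bal

variable {V A B : Type} [Fintype V] [Fintype A] [Fintype B]
  [DecidableEq V] [DecidableEq A] [DecidableEq B]

/-- the conclusion: a colouring all of whose classes meet every directed cut -/
def Good (tail head : A → V) (τ η : B → V) (m : ℕ) : Prop :=
  ∃ c : B → Fin (m + 1), ∀ i, ∀ U : Finset V, Cl tail head (U : Set V) → U.Nonempty → U ≠ univ →
      ∃ b, c b = i ∧ τ b ∈ U ∧ η b ∉ U

/-- the hypothesis: a `(m+1)`-dijoin -/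
def Dij (tail head : A → V) (τ η : B → V) (m : ℕ) : Prop :=
  ∀ U : Finset V, Cl tail head (U : Set V) → U.Nonempty → U ≠ univ →
       m + 1 ≤ (univ.filter (fun b => τ b ∈ U ∧ η b ∉ U)).card

theorem base (tail head : A → V) (s t : V)
    (hsrc : ∀ v, ∃ u, IsSource head u ∧ Reach tail head u v)
    (hsnk : ∀ v, ∃ w, IsSink tail w ∧ Reach tail head v w)
    (m : ℕ) (τ η : B → V) (hr : ∀ b, Reach tail head (τ b) (η b))
    (hd : Dij tail head τ η m)
    (h1 : ∀ b, τ b ≠ η b → Reach tail head s (η b))
    (h2 : ∀ b, τ b ≠ η b → Reach tail head (τ b) t) :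
    Good tail head τ η m := by
  classical
  let tail' : A ⊕ B → V := Sum.elim tail τ
  let head' : A ⊕ B → V := Sum.elim head η
  have hcl : ∀ X : Set V, Cl tail' head' X ↔ Cl tail head X := by
    intro X
    constructor
    · intro h a ha
      exact h (Sum.inl a) ha
    · rintro h (a | b) ha
      · exact h a ha
      · exact h.reach (hr b) ha
  let F : Finset (A ⊕ B) := univ.filter (fun x => tail' x ≠ head' x ∧ x.isRight = true)
  have hFm : ∀ b, Sum.inr b ∈ F ↔ τ b ≠ η b := by
    intro b; simp [F, tail', head']
  have hFr : ∀ x ∈ F, ∃ b, x = Sum.inr b ∧ τ b ≠ η b := by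
    rintro (a | b) hx
    · simp [F] at hx
    · exact ⟨b, rfl, (hFm b).1 hx⟩
  have hcov : Cov tail' head' s t (m + 1) F := by
    intro U hU hsU htU
    have h := hd U ((hcl _).1 hU) ⟨s, hsU⟩ (fun e => htU (by rw [e]; exact mem_univ _))
    refine h.trans ?_
    apply Finset.card_le_card_of_injOn (fun b => (Sum.inr b : A ⊕ B))
    · intro b hb
      have hb' := Finset.mem_filter.1 (Finset.mem_coe.1 hb)
      refine Finset.mem_coe.2 (Finset.mem_filter.2 ⟨(hFm b).2 ?_, hb'.2⟩)
      intro e
      exact hb'.2.2 (by rw [← e]; exact hb'.2.1)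
    · intro b _ b' _ e
      exact Sum.inr.inj e
  obtain ⟨c, hc1, hc2⟩ := best tail' head' s t F hcov
  refine ⟨fun b => c (Sum.inr b), ?_⟩
  intro i U hU hne hnu
  by_cases qt : t ∈ U
  · obtain ⟨w0, hw0⟩ : ∃ w0, w0 ∉ U := by
      by_contra hcon
      push Not at hcon
      exact hnu (Finset.eq_univ_iff_forall.2 hcon)
    obtain ⟨w, hws, hwr⟩ := hsnk w0
    have hwU : w ∉ U := fun h => hw0 (by exact_mod_cast hU.reach hwr (by exact_mod_cast h))
    have hcard : m + 1 ≤ (F.filter (fun a => en tail' head' false a = w)).card := by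
      have hcl1 : Cl tail head ((univ.erase w : Finset V) : Set V) := by
        intro a _
        simp [hws a]
      have h := hd (univ.erase w) hcl1 ⟨t, by
          rw [Finset.mem_erase]; exact ⟨fun e => hwU (e ▸ qt), mem_univ _⟩⟩
          (fun e => by
            have : w ∈ univ.erase w := by rw [e]; exact mem_univ _
            simp at this)
      refine h.trans ?_
      apply Finset.card_le_card_of_injOn (fun b => (Sum.inr b : A ⊕ B))
      · intro b hb
        have hb' := (Finset.mem_filter.1 (Finset.mem_coe.1 hb)).2
        have e1 : τ b ≠ w := by simpa using hb'.1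
        have e2 : η b = w := by
          have := hb'.2
          simpa using this
        refine Finset.mem_coe.2 (Finset.mem_filter.2 ⟨(hFm b).2 (by rw [e2]; exact e1), ?_⟩)
        show η b = w
        exact e2
      · intro b _ b' _ e
        exact Sum.inr.inj e
    obtain ⟨a, ha, he, hci⟩ := hc2 w false hcard i
    obtain ⟨b, rfl, hb⟩ := hFr a ha
    have he' : η b = w := he
    refine ⟨b, hci, ?_, by rw [he']; exact hwU⟩
    exact_mod_cast hU.reach (h2 b hb) (by exact_mod_cast qt)
  · by_cases qs : s ∈ U
    · have h := hc1 i U ((hcl _).2 hU) qs qt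
      obtain ⟨a, ha⟩ := Finset.card_pos.1 h
      rw [Finset.mem_filter, Finset.mem_filter] at ha
      obtain ⟨b, rfl, hb⟩ := hFr a ha.1.1
      exact ⟨b, ha.1.2, ha.2.1, ha.2.2⟩
    · obtain ⟨u0, hu0⟩ := hne
      obtain ⟨u, hus, hur⟩ := hsrc u0
      have huU : u ∈ U := by exact_mod_cast hU.reach hur (by exact_mod_cast hu0)
      have hcard : m + 1 ≤ (F.filter (fun a => en tail' head' true a = u)).card := by
        have hcl1 : Cl tail head (({u} : Finset V) : Set V) := by
          intro a ha
          exact absurd (by simpa using ha) (hus a)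
        have h := hd {u} hcl1 ⟨u, by simp⟩
            (fun e => by
              have : s ∈ ({u} : Finset V) := by rw [e]; exact mem_univ _
              rw [Finset.mem_singleton] at this
              exact qs (this ▸ huU))
        refine h.trans ?_
        apply Finset.card_le_card_of_injOn (fun b => (Sum.inr b : A ⊕ B))
        · intro b hb
          have hb' := (Finset.mem_filter.1 (Finset.mem_coe.1 hb)).2
          have e1 : τ b = u := by simpa using hb'.1
          have e2 : η b ≠ u := by simpa using hb'.2
          refine Finset.mem_coe.2 (Finset.mem_filter.2 ⟨(hFm b).2 (by rw [e1]; exact e2.symm), ?_⟩)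
          show τ b = u
          exact e1
        · intro b _ b' _ e
          exact Sum.inr.inj e
      obtain ⟨a, ha, he, hci⟩ := hc2 u true hcard i
      obtain ⟨b, rfl, hb⟩ := hFr a ha
      have he' : τ b = u := he
      refine ⟨b, hci, by rw [he']; exact huU, ?_⟩
      intro h
      exact qs (by exact_mod_cast hU.reach (h1 b hb) (by exact_mod_cast h))

/-- leaving minus entering -/
def exc (τ η : B → V) (v : V) : ℤ :=
  (∑ b, if τ b = v then (1 : ℤ) else 0) - ∑ b, if η b = v then (1 : ℤ) else 0

omit [Fintype V] in
theorem sum_upd (f : B → V) (x : B) (w v : V) :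
    (∑ b, if Function.update f x w b = v then (1 : ℤ) else 0) =
      (∑ b, if f b = v then (1 : ℤ) else 0) - (if f x = v then 1 else 0) + (if w = v then 1 else 0) := by
  have h1 : (fun b => if Function.update f x w b = v then (1 : ℤ) else 0) =
      Function.update (fun b => if f b = v then (1 : ℤ) else 0) x (if w = v then 1 else 0) := by
    funext b
    by_cases h : b = x
    · subst h; simp
    · simp [h]
  rw [h1, Finset.sum_update_of_mem (mem_univ x)]
  have h2 : (∑ b, if f b = v then (1 : ℤ) else 0) =
      (if f x = v then (1 : ℤ) else 0) + ∑ b ∈ univ \ {x}, if f b = v then (1 : ℤ) else 0 :=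
    Finset.sum_eq_add_sum_sdiff_singleton_of_mem (mem_univ x) _
  rw [h2]; ring

theorem balanced (tail head : A → V) (s t : V)
    (hsrc : ∀ v, ∃ u, IsSource head u ∧ Reach tail head u v)
    (hsnk : ∀ v, ∃ w, IsSink tail w ∧ Reach tail head v w)
    (m : ℕ) (N : ℕ) : ∀ (τ η : B → V), (univ.filter (fun b => τ b ≠ η b)).card ≤ N →
    (∀ b, Reach tail head (τ b) (η b)) → Dij tail head τ η m →
    (∀ v, ¬ Reach tail head s v → 0 ≤ exc τ η v) →
    (∀ v, ¬ Reach tail head v t → exc τ η v ≤ 0) → Good tail head τ η m := by
  classical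
  induction N with
  | zero =>
    intro τ η hN hr hd _ _
    have h0 : ∀ b, τ b = η b := by
      intro b
      by_contra h
      have : b ∈ univ.filter (fun b => τ b ≠ η b) := by simp [h]
      rw [Finset.card_eq_zero.1 (Nat.le_zero.1 hN)] at this
      simp at this
    exact base tail head s t hsrc hsnk m τ η hr hd (fun b h => absurd (h0 b) h)
      (fun b h => absurd (h0 b) h)
  | succ N ih =>
    intro τ η hN hr hd he1 he2
    by_cases hall : (∀ b, τ b ≠ η b → Reach tail head s (η b)) ∧
        (∀ b, τ b ≠ η b → Reach tail head (τ b) t)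
    · exact base tail head s t hsrc hsnk m τ η hr hd hall.1 hall.2
    · -- find a pair to split off
      obtain ⟨x, y, hx, hy, hxy⟩ : ∃ x y, τ x ≠ η x ∧ τ y ≠ η y ∧ η x = τ y := by
        rw [not_and_or] at hall
        rcases hall with h | h
        · push Not at h
          obtain ⟨x, hx, hxs⟩ := h
          by_contra hcon
          push Not at hcon
          have hterm : ∀ b, ((if τ b = η x then (1 : ℤ) else 0) - (if η b = η x then 1 else 0)) ≤ 0 := by
            intro b
            by_cases q : τ b = η b
            · rw [q]; simp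
            · have : τ b ≠ η x := fun e => hcon x b hx q e.symm
              rw [if_neg this]
              split_ifs <;> norm_num
          have hlt : exc τ η (η x) < 0 := by
            unfold exc
            rw [← Finset.sum_sub_distrib]
            refine Finset.sum_neg' (fun b _ => hterm b) ⟨x, mem_univ _, ?_⟩
            rw [if_neg hx, if_pos rfl]; norm_num
          exact absurd (he1 _ hxs) (not_le.2 hlt)
        · push Not at h
          obtain ⟨y, hy, hyt⟩ := h
          by_contra hcon
          push Not at hcon
          have hterm : ∀ b, 0 ≤ ((if τ b = τ y then (1 : ℤ) else 0) - (if η b = τ y then 1 else 0)) := by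
            intro b
            by_cases q : τ b = η b
            · rw [q]; simp
            · have : η b ≠ τ y := fun e => hcon b y q hy e
              rw [if_neg this]
              split_ifs <;> norm_num
          have hlt : 0 < exc τ η (τ y) := by
            unfold exc
            rw [← Finset.sum_sub_distrib]
            refine Finset.sum_pos' (fun b _ => hterm b) ⟨y, mem_univ _, ?_⟩
            rw [if_pos rfl, if_neg (fun e => hy e.symm)]; norm_num
          exact absurd (he2 _ hyt) (not_le.2 hlt)
      have hne : x ≠ y := fun e => hx (by rw [hxy, e])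
      let τ' : B → V := Function.update τ y (η y)
      let η' : B → V := Function.update η x (η y)
      have t1 : τ' y = η y := Function.update_self ..
      have t2 : ∀ b, b ≠ y → τ' b = τ b := fun b h => Function.update_of_ne h ..
      have e1 : η' x = η y := Function.update_self ..
      have e2 : ∀ b, b ≠ x → η' b = η b := fun b h => Function.update_of_ne h ..
      have hr' : ∀ b, Reach tail head (τ' b) (η' b) := by
        intro b
        by_cases q1 : b = x
        · subst q1
          rw [t2 _ hne, e1]
          have := hr b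
          rw [hxy] at this
          exact Relation.ReflTransGen.trans this (hr y)
        · by_cases q2 : b = y
          · subst q2
            rw [t1, e2 _ q1]
            exact Relation.ReflTransGen.refl
          · rw [t2 _ q2, e2 _ q1]; exact hr b
      have hd' : Dij tail head τ' η' m := by
        intro U hU hne' hnu
        refine (hd U hU hne' hnu).trans ?_
        have hclo : ∀ b, η b ∈ U → τ b ∈ U := by
          intro b hb
          exact_mod_cast hU.reach (hr b) (by exact_mod_cast hb)
        apply Finset.card_le_card_of_injOn (fun b => if b = y then x else b)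
        · intro b hb
          have hb' := (Finset.mem_filter.1 (Finset.mem_coe.1 hb)).2
          refine Finset.mem_coe.2 (Finset.mem_filter.2 ⟨mem_univ _, ?_⟩)
          show τ' (if b = y then x else b) ∈ U ∧ η' (if b = y then x else b) ∉ U
          by_cases q2 : b = y
          · rw [if_pos q2, t2 _ hne, e1]
            subst q2
            exact ⟨hclo x (by rw [hxy]; exact hb'.1), hb'.2⟩
          · rw [if_neg q2]
            by_cases q1 : b = x
            · subst q1
              rw [t2 _ hne, e1]
              refine ⟨hb'.1, fun h => hb'.2 ?_⟩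
              rw [hxy]; exact hclo y h
            · rw [t2 _ q2, e2 _ q1]; exact hb'
        · intro b hb b' hb' hbb
          have h1 := (Finset.mem_filter.1 (Finset.mem_coe.1 hb)).2
          have h2 := (Finset.mem_filter.1 (Finset.mem_coe.1 hb')).2
          simp only at hbb
          by_cases q1 : b = y <;> by_cases q2 : b' = y
          · rw [q1, q2]
          · rw [if_pos q1, if_neg q2] at hbb
            exfalso
            rw [q1] at h1
            rw [← hbb, hxy] at h2
            exact h2.2 h1.1
          · rw [if_neg q1, if_pos q2] at hbb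
            exfalso
            rw [q2] at h2
            rw [hbb, hxy] at h1
            exact h1.2 h2.1
          · rwa [if_neg q1, if_neg q2] at hbb
      have hN' : (univ.filter (fun b => τ' b ≠ η' b)).card ≤ N := by
        have hsub : univ.filter (fun b => τ' b ≠ η' b) ⊆ (univ.filter (fun b => τ b ≠ η b)).erase y := by
          intro b hb
          have hb' := (Finset.mem_filter.1 hb).2
          have q2 : b ≠ y := by
            intro q
            apply hb'
            rw [q, t1, e2 _ hne.symm]
          rw [Finset.mem_erase]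
          refine ⟨q2, Finset.mem_filter.2 ⟨mem_univ _, ?_⟩⟩
          by_cases q1 : b = x
          · rw [q1]; exact hx
          · rw [t2 _ q2, e2 _ q1] at hb'; exact hb'
        have h3 := Finset.card_le_card hsub
        have hymem : y ∈ univ.filter (fun b => τ b ≠ η b) := Finset.mem_filter.2 ⟨mem_univ _, hy⟩
        rw [Finset.card_erase_of_mem hymem] at h3
        omega
      have hexc : ∀ v, exc τ' η' v = exc τ η v := by
        intro v
        unfold exc
        rw [show (∑ b, if τ' b = v then (1 : ℤ) else 0) = _ from sum_upd τ y (η y) v,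
          show (∑ b, if η' b = v then (1 : ℤ) else 0) = _ from sum_upd η x (η y) v, hxy]
        ring
      obtain ⟨c', hc'⟩ := ih τ' η' hN' hr' hd' (fun v h => by rw [hexc]; exact he1 v h)
        (fun v h => by rw [hexc]; exact he2 v h)
      refine ⟨Function.update c' y (c' x), ?_⟩
      intro i U hU hne' hnu
      obtain ⟨b, hb1, hb2, hb3⟩ := hc' i U hU hne' hnu
      have q2 : b ≠ y := by
        intro q
        rw [q, t1] at hb2
        rw [q, e2 _ hne.symm] at hb3
        exact hb3 hb2
      by_cases q1 : b = x
      · subst q1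
        rw [t2 _ hne] at hb2
        rw [e1] at hb3
        by_cases q3 : η b ∈ U
        · refine ⟨y, ?_, by rw [← hxy]; exact q3, hb3⟩
          rw [Function.update_self]; exact hb1
        · refine ⟨b, ?_, hb2, q3⟩
          rw [Function.update_of_ne hne]; exact hb1
      · rw [t2 _ q2] at hb2
        rw [e2 _ q1] at hb3
        refine ⟨b, ?_, hb2, hb3⟩
        rw [Function.update_of_ne q2]; exact hb1

end Bal

/-- the final form, with the arcs of `F` possibly shrunk -/
theorem mainShrunk {V A : Type} [Finite V] [Finite A] (tail head : A → V) (s t : V)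
    (hsrc : ∀ v, ∃ u, IsSource head u ∧ Reach tail head u v)
    (hsnk : ∀ v, ∃ w, IsSink tail w ∧ Reach tail head v w)
    (k : ℕ) (hk : 1 ≤ k) (F : Set A) (p q : A → V)
    (h1 : ∀ a ∈ F, Reach tail head (tail a) (p a))
    (h2 : ∀ a ∈ F, Reach tail head (p a) (q a))
    (h3 : ∀ a ∈ F, Reach tail head (q a) (head a))
    (hF : ∀ U : Set V, IsShore tail head U →
      k ≤ ({a | a ∈ F ∧ p a ∈ U ∧ q a ∉ U} : Set A).ncard)
    (hin : ∀ v, ¬ Reach tail head s v →
      ({a | a ∈ F ∧ q a = v} : Set A).ncard ≤ ({a | a ∈ F ∧ p a = v} : Set A).ncard)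
    (hout : ∀ v, ¬ Reach tail head v t →
      ({a | a ∈ F ∧ p a = v} : Set A).ncard ≤ ({a | a ∈ F ∧ q a = v} : Set A).ncard) :
    ∃ P : Fin k → Set A, (∀ i, IsKDijoin tail head 1 (P i)) ∧
      (∀ i j, i ≠ j → Disjoint (P i) (P j)) ∧ (⋃ i, P i) = F := by
  classical
  have : Fintype V := Fintype.ofFinite V
  have : Fintype A := Fintype.ofFinite A
  obtain ⟨m, rfl⟩ : ∃ m, k = m + 1 := ⟨k - 1, by omega⟩
  let τ : ↥F → V := fun b => p b.1
  let η : ↥F → V := fun b => q b.1
  have hcnt : ∀ p : A → Prop, ({a | a ∈ F ∧ p a} : Set A).ncard =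
      (univ.filter (fun b : ↥F => p b.1)).card := by
    intro p
    rw [← Set.ncard_coe_finset]
    symm
    refine Set.ncard_congr (fun b _ => b.1) ?_ ?_ ?_
    · intro b hb
      simp only [coe_filter, mem_univ, true_and, Set.mem_ofPred_eq] at hb
      exact ⟨b.2, hb⟩
    · intro b b' _ _ h
      exact Subtype.ext h
    · rintro a ⟨h1, h2⟩
      exact ⟨⟨a, h1⟩, by simpa using h2, rfl⟩
  have hexc : ∀ v, exc τ η v = ((({a | a ∈ F ∧ p a = v} : Set A).ncard : ℕ) : ℤ) -
      ((({a | a ∈ F ∧ q a = v} : Set A).ncard : ℕ) : ℤ) := by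
    intro v
    unfold exc
    rw [hcnt, hcnt, Finset.card_filter, Finset.card_filter]
    push_cast
    rfl
  have hgood : Good tail head τ η m := by
    refine balanced tail head s t hsrc hsnk m _ τ η le_rfl ?_ ?_ ?_ ?_
    · intro b
      exact h2 b.1 b.2
    · intro U hU hne hnu
      have h := hF (U : Set V) ⟨by exact_mod_cast hne, fun e => hnu (by exact_mod_cast e), hU⟩
      rw [hcnt (fun a => p a ∈ (U : Set V) ∧ q a ∉ (U : Set V))] at h
      simpa using h
    · intro v hv
      rw [hexc]
      have := hin v hv
      have : ((({a | a ∈ F ∧ q a = v} : Set A).ncard : ℕ) : ℤ) ≤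
        ((({a | a ∈ F ∧ p a = v} : Set A).ncard : ℕ) : ℤ) := by exact_mod_cast this
      linarith
    · intro v hv
      rw [hexc]
      have := hout v hv
      have : ((({a | a ∈ F ∧ p a = v} : Set A).ncard : ℕ) : ℤ) ≤
        ((({a | a ∈ F ∧ q a = v} : Set A).ncard : ℕ) : ℤ) := by exact_mod_cast this
      linarith
  obtain ⟨c, hc⟩ := hgood
  refine ⟨fun i => {a | ∃ h : a ∈ F, c ⟨a, h⟩ = i}, ?_, ?_, ?_⟩
  · intro i U hU
    rw [Nat.one_le_iff_ne_zero, ← Nat.pos_iff_ne_zero, Set.ncard_pos (Set.toFinite _)]
    let Uf : Finset V := univ.filter (fun v => v ∈ U)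
    have hUf : ∀ v, v ∈ Uf ↔ v ∈ U := by intro v; simp [Uf]
    have g1 : Cl tail head (Uf : Set V) := by
      intro a ha
      have h1 : head a ∈ Uf := by exact_mod_cast ha
      have : tail a ∈ Uf := (hUf _).2 (hU.2.2 a ((hUf _).1 h1))
      exact_mod_cast this
    have g2 : Uf.Nonempty := by
      obtain ⟨x, hx⟩ := hU.1
      exact ⟨x, (hUf x).2 hx⟩
    have g3 : Uf ≠ univ := by
      intro e
      apply hU.2.1
      ext v
      simp only [Set.mem_univ, iff_true]
      rw [← hUf, e]; exact mem_univ _
    obtain ⟨b, hb1, hb2, hb3⟩ := hc i Uf g1 g2 g3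
    have hcl : Cl tail head U := hU.2.2
    exact ⟨b.1, ⟨b.2, hb1⟩, hcl.reach (h1 b.1 b.2) ((hUf _).1 hb2),
      fun h => hb3 ((hUf _).2 (hcl.reach (h3 b.1 b.2) h))⟩
  · intro i j hij
    rw [Set.disjoint_left]
    rintro a ⟨h1, h2⟩ ⟨h3, h4⟩
    exact hij (h2.symm.trans h4)
  · ext a
    simp

end Pool.Agent.H968R4
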