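import Mathlib
import Pool.Agent.H968R4.Balanced

set_option autoImplicit false

open Finset

namespace Pool.Agent.H968R4

section Flo

variable {V A B : Type} [Fintype V] [Fintype A] [Fintype B]
  [DecidableEq V] [DecidableEq A] [DecidableEq B]

/-- at least `m+1` of the pairs leave every closed set containing `s` but not `t` -/
def DijA (tail head : A → V) (s t : V) (τ η : B → V) (m : ℕ) : Prop :=
  ∀ U : Finset V, Cl tail head (U : Set V) → s ∈ U → t ∉ U →
       m + 1 ≤ (univ.filter (fun b => τ b ∈ U ∧ η b ∉ U)).card

/-- leaving minus entering, for the marked pairs -/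
def excG (g : B → Bool) (τ η : B → V) (v : V) : ℤ :=
  (∑ b, if g b = true ∧ τ b = v then (1 : ℤ) else 0) -
    ∑ b, if g b = true ∧ η b = v then (1 : ℤ) else 0

theorem baseG (tail head : A → V) (s t : V)
    (hsrc : ∀ v, ∃ u, IsSource head u ∧ Reach tail head u v)
    (hsnk : ∀ v, ∃ w, IsSink tail w ∧ Reach tail head v w)
    (m : ℕ) (g : B → Bool) (τ η : B → V) (hr : ∀ b, Reach tail head (τ b) (η b))
    (hd : DijA tail head s t τ η m)
    (hs1 : ∀ u, IsSource head u → u ≠ s → ((m + 1 : ℕ) : ℤ) ≤ excG g τ η u)
    (ht1 : ∀ w, IsSink tail w → w ≠ t → excG g τ η w ≤ -((m + 1 : ℕ) : ℤ))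
    (h1 : ∀ b, g b = true → τ b ≠ η b → Reach tail head s (η b))
    (h2 : ∀ b, g b = true → τ b ≠ η b → Reach tail head (τ b) t) :
    Good tail head τ η m := by
  classical
  let tail' : (A ⊕ B) ⊕ (V × Bool) → V × Bool :=
    Sum.elim (Sum.elim (fun a => (tail a, false)) (fun b => (τ b, g b))) (fun z => z)
  let head' : (A ⊕ B) ⊕ (V × Bool) → V × Bool :=
    Sum.elim (Sum.elim (fun a => (head a, false)) (fun b => (η b, g b))) (fun z => (z.1, !z.2))
  let F : Finset ((A ⊕ B) ⊕ (V × Bool)) :=
    univ.filter (fun x => ∃ b, x = Sum.inl (Sum.inr b) ∧ τ b ≠ η b)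
  have hFm : ∀ b, Sum.inl (Sum.inr b) ∈ F ↔ τ b ≠ η b := by
    intro b; simp [F]
  have hFr : ∀ x ∈ F, ∃ b, x = Sum.inl (Sum.inr b) ∧ τ b ≠ η b := by
    intro x hx
    exact (Finset.mem_filter.1 hx).2
  have hlab : ∀ X : Set (V × Bool), Cl tail' head' X → ∀ v e e', (v, e) ∈ X → (v, e') ∈ X := by
    intro X hX v e e' h
    by_cases q : e' = e
    · rw [q]; exact h
    · have h1 := hX (Sum.inr (v, e'))
      apply h1
      show (v, !e') ∈ X
      have : (!e') = e := by revert q; cases e <;> cases e' <;> simp
      rw [this]; exact h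
  have hlift : ∀ U : Finset V, Cl tail head (U : Set V) →
      Cl tail' head' ((univ.filter (fun z : V × Bool => z.1 ∈ U) : Finset (V × Bool)) : Set (V × Bool)) := by
    intro U hU
    rintro ((a | b) | z) h
    · simp only [coe_filter, mem_univ, true_and, Set.mem_ofPred_eq] at h ⊢
      exact_mod_cast hU a (by exact_mod_cast h)
    · simp only [coe_filter, mem_univ, true_and, Set.mem_ofPred_eq] at h ⊢
      exact_mod_cast hU.reach (hr b) (by exact_mod_cast h)
    · simp only [coe_filter, mem_univ, true_and, Set.mem_ofPred_eq] at h ⊢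
      exact h
  have hcov : Cov tail' head' (s, false) (t, false) (m + 1) F := by
    intro X hX hsX htX
    let U : Finset V := univ.filter (fun v => (v, false) ∈ X)
    have hU1 : ∀ v e, (v, e) ∈ X ↔ v ∈ U := by
      intro v e
      simp only [U, mem_filter, mem_univ, true_and]
      constructor
      · intro h
        exact_mod_cast hlab X hX v e false (by exact_mod_cast h)
      · intro h
        exact_mod_cast hlab X hX v false e (by exact_mod_cast h)
    have hUcl : Cl tail head (U : Set V) := by
      intro a ha
      have h1 : (head a, false) ∈ X := (hU1 _ _).2 (by exact_mod_cast ha)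
      have h2 := hX (Sum.inl (Sum.inl a)) (by exact_mod_cast h1)
      have h3 : (tail a, false) ∈ X := by exact_mod_cast h2
      exact_mod_cast (hU1 _ _).1 h3
    have h := hd U hUcl ((hU1 _ _).1 hsX) (fun h => htX ((hU1 _ _).2 h))
    refine h.trans ?_
    apply Finset.card_le_card_of_injOn (fun b => (Sum.inl (Sum.inr b) : (A ⊕ B) ⊕ (V × Bool)))
    · intro b hb
      have hb' := Finset.mem_filter.1 (Finset.mem_coe.1 hb)
      refine Finset.mem_coe.2 (Finset.mem_filter.2 ⟨(hFm b).2 ?_, ?_, ?_⟩)
      · intro e
        exact hb'.2.2 (by rw [← e]; exact hb'.2.1)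
      · exact (hU1 _ _).2 hb'.2.1
      · exact fun h => hb'.2.2 ((hU1 _ _).1 h)
    · intro b _ b' _ e
      exact Sum.inr.inj (Sum.inl.inj e)
  obtain ⟨c, hc1, hc2⟩ := best tail' head' (s, false) (t, false) F hcov
  refine ⟨fun b => c (Sum.inl (Sum.inr b)), ?_⟩
  intro i U hU hne hnu
  by_cases qt : t ∈ U
  · obtain ⟨w0, hw0⟩ : ∃ w0, w0 ∉ U := by
      by_contra hcon
      push Not at hcon
      exact hnu (Finset.eq_univ_iff_forall.2 hcon)
    obtain ⟨w, hws, hwr⟩ := hsnk w0
    have hwU : w ∉ U := fun h => hw0 (by exact_mod_cast hU.reach hwr (by exact_mod_cast h))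
    have hcard : m + 1 ≤ (F.filter (fun a => en tail' head' false a = (w, true))).card := by
      have e0 := ht1 w hws (fun e => hwU (e ▸ qt))
      have e1 : -(excG g τ η w) ≤ ((univ.filter (fun b => g b = true ∧ τ b ≠ η b ∧ η b = w)).card : ℤ) := by
        rw [Finset.card_filter]
        unfold excG
        push_cast
        rw [neg_sub, ← Finset.sum_sub_distrib]
        apply Finset.sum_le_sum
        intro b _
        by_cases q1 : g b = true <;> by_cases q2 : τ b = w <;> by_cases q3 : η b = w <;>
          simp [q1, q2, q3]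
      have e2 : (univ.filter (fun b => g b = true ∧ τ b ≠ η b ∧ η b = w)).card ≤
          (F.filter (fun a => en tail' head' false a = (w, true))).card := by
        apply Finset.card_le_card_of_injOn (fun b => (Sum.inl (Sum.inr b) : (A ⊕ B) ⊕ (V × Bool)))
        · intro b hb
          have hb' := (Finset.mem_filter.1 (Finset.mem_coe.1 hb)).2
          refine Finset.mem_coe.2 (Finset.mem_filter.2 ⟨(hFm b).2 hb'.2.1, ?_⟩)
          show (η b, g b) = (w, true)
          rw [hb'.1, hb'.2.2]
        · intro b _ b' _ e
          exact Sum.inr.inj (Sum.inl.inj e)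
      omega
    obtain ⟨a, ha, he, hci⟩ := hc2 (w, true) false hcard i
    obtain ⟨b, rfl, hb⟩ := hFr a ha
    have he' : (η b, g b) = (w, true) := he
    have he1 : η b = w := congrArg Prod.fst he'
    have he2 : g b = true := congrArg Prod.snd he'
    refine ⟨b, hci, ?_, by rw [he1]; exact hwU⟩
    exact_mod_cast hU.reach (h2 b he2 hb) (by exact_mod_cast qt)
  · by_cases qs : s ∈ U
    · have h := hc1 i _ (hlift U hU) (by simpa using qs) (by simpa using qt)
      obtain ⟨a, ha⟩ := Finset.card_pos.1 h
      rw [Finset.mem_filter, Finset.mem_filter] at ha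
      obtain ⟨b, rfl, hb⟩ := hFr a ha.1.1
      refine ⟨b, ha.1.2, ?_, ?_⟩
      · have h3 := ha.2.1
        simpa [tail'] using h3
      · have h3 := ha.2.2
        simpa [head'] using h3
    · obtain ⟨u0, hu0⟩ := hne
      obtain ⟨u, hus, hur⟩ := hsrc u0
      have huU : u ∈ U := by exact_mod_cast hU.reach hur (by exact_mod_cast hu0)
      have hcard : m + 1 ≤ (F.filter (fun a => en tail' head' true a = (u, true))).card := by
        have e0 := hs1 u hus (fun e => qs (e ▸ huU))
        have e1 : excG g τ η u ≤ ((univ.filter (fun b => g b = true ∧ τ b ≠ η b ∧ τ b = u)).card : ℤ) := by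
          rw [Finset.card_filter]
          unfold excG
          push_cast
          rw [← Finset.sum_sub_distrib]
          apply Finset.sum_le_sum
          intro b _
          by_cases q1 : g b = true <;> by_cases q2 : τ b = u <;> by_cases q3 : η b = u <;>
            first
              | simp [q1, q2, q3]; done
              | (have q4 : ¬ u = η b := fun e => q3 e.symm
                 simp [q1, q2, q3, q4])
        have e2 : (univ.filter (fun b => g b = true ∧ τ b ≠ η b ∧ τ b = u)).card ≤
            (F.filter (fun a => en tail' head' true a = (u, true))).card := by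
          apply Finset.card_le_card_of_injOn (fun b => (Sum.inl (Sum.inr b) : (A ⊕ B) ⊕ (V × Bool)))
          · intro b hb
            have hb' := (Finset.mem_filter.1 (Finset.mem_coe.1 hb)).2
            refine Finset.mem_coe.2 (Finset.mem_filter.2 ⟨(hFm b).2 hb'.2.1, ?_⟩)
            show (τ b, g b) = (u, true)
            rw [hb'.1, hb'.2.2]
          · intro b _ b' _ e
            exact Sum.inr.inj (Sum.inl.inj e)
        omega
      obtain ⟨a, ha, he, hci⟩ := hc2 (u, true) true hcard i
      obtain ⟨b, rfl, hb⟩ := hFr a ha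
      have he' : (τ b, g b) = (u, true) := he
      have he1 : τ b = u := congrArg Prod.fst he'
      have he2 : g b = true := congrArg Prod.snd he'
      refine ⟨b, hci, by rw [he1]; exact huU, ?_⟩
      intro h
      exact qs (by exact_mod_cast hU.reach (h1 b he2 hb) (by exact_mod_cast h))

omit [Fintype V] in
theorem sum_updG (g : B → Bool) (f : B → V) (x : B) (hx : g x = true) (w v : V) :
    (∑ b, if g b = true ∧ Function.update f x w b = v then (1 : ℤ) else 0) =
      (∑ b, if g b = true ∧ f b = v then (1 : ℤ) else 0) - (if f x = v then 1 else 0) +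
        (if w = v then 1 else 0) := by
  have h1 : (fun b => if g b = true ∧ Function.update f x w b = v then (1 : ℤ) else 0) =
      Function.update (fun b => if g b = true ∧ f b = v then (1 : ℤ) else 0) x
        (if w = v then 1 else 0) := by
    funext b
    by_cases h : b = x
    · subst h; simp [hx]
    · simp [h]
  rw [h1, Finset.sum_update_of_mem (mem_univ x)]
  have h2 : (∑ b, if g b = true ∧ f b = v then (1 : ℤ) else 0) =
      (if f x = v then (1 : ℤ) else 0) +
        ∑ b ∈ univ \ {x}, if g b = true ∧ f b = v then (1 : ℤ) else 0 := by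
    rw [Finset.sum_eq_add_sum_sdiff_singleton_of_mem (mem_univ x)]
    simp [hx]
  rw [h2]; ring

theorem balancedG (tail head : A → V) (s t : V)
    (hsrc : ∀ v, ∃ u, IsSource head u ∧ Reach tail head u v)
    (hsnk : ∀ v, ∃ w, IsSink tail w ∧ Reach tail head v w)
    (m : ℕ) (g : B → Bool) (N : ℕ) : ∀ (τ η : B → V),
    (univ.filter (fun b => g b = true ∧ τ b ≠ η b)).card ≤ N →
    (∀ b, Reach tail head (τ b) (η b)) → DijA tail head s t τ η m →
    (∀ u, IsSource head u → u ≠ s → ((m + 1 : ℕ) : ℤ) ≤ excG g τ η u) →
    (∀ w, IsSink tail w → w ≠ t → excG g τ η w ≤ -((m + 1 : ℕ) : ℤ)) →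
    (∀ v, ¬ Reach tail head s v → 0 ≤ excG g τ η v) →
    (∀ v, ¬ Reach tail head v t → excG g τ η v ≤ 0) → Good tail head τ η m := by
  classical
  induction N with
  | zero =>
    intro τ η hN hr hd hs1 ht1 _ _
    have h0 : ∀ b, g b = true → τ b = η b := by
      intro b hg
      by_contra h
      have : b ∈ univ.filter (fun b => g b = true ∧ τ b ≠ η b) := by simp [h, hg]
      rw [Finset.card_eq_zero.1 (Nat.le_zero.1 hN)] at this
      simp at this
    exact baseG tail head s t hsrc hsnk m g τ η hr hd hs1 ht1 (fun b hg h => absurd (h0 b hg) h)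
      (fun b hg h => absurd (h0 b hg) h)
  | succ N ih =>
    intro τ η hN hr hd hs1 ht1 he1 he2
    by_cases hall : (∀ b, g b = true → τ b ≠ η b → Reach tail head s (η b)) ∧
        (∀ b, g b = true → τ b ≠ η b → Reach tail head (τ b) t)
    · exact baseG tail head s t hsrc hsnk m g τ η hr hd hs1 ht1 hall.1 hall.2
    · -- find a pair to split off
      obtain ⟨x, y, gx, gy, hx, hy, hxy⟩ : ∃ x y, g x = true ∧ g y = true ∧ τ x ≠ η x ∧ τ y ≠ η y ∧
          η x = τ y := by
        rw [not_and_or] at hall
        rcases hall with h | h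
        · push Not at h
          obtain ⟨x, gx, hx, hxs⟩ := h
          by_contra hcon
          push Not at hcon
          have hterm : ∀ b, ((if g b = true ∧ τ b = η x then (1 : ℤ) else 0) -
              (if g b = true ∧ η b = η x then 1 else 0)) ≤ 0 := by
            intro b
            by_cases q : τ b = η b
            · rw [q]; simp
            · have : ¬ (g b = true ∧ τ b = η x) := fun e => hcon x b gx e.1 hx q e.2.symm
              rw [if_neg this]
              split_ifs <;> norm_num
          have hlt : excG g τ η (η x) < 0 := by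
            unfold excG
            rw [← Finset.sum_sub_distrib]
            refine Finset.sum_neg' (fun b _ => hterm b) ⟨x, mem_univ _, ?_⟩
            rw [if_neg (fun e => hx e.2), if_pos ⟨gx, rfl⟩]; norm_num
          exact absurd (he1 _ hxs) (not_le.2 hlt)
        · push Not at h
          obtain ⟨y, gy, hy, hyt⟩ := h
          by_contra hcon
          push Not at hcon
          have hterm : ∀ b, 0 ≤ ((if g b = true ∧ τ b = τ y then (1 : ℤ) else 0) -
              (if g b = true ∧ η b = τ y then 1 else 0)) := by
            intro b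
            by_cases q : τ b = η b
            · rw [q]; simp
            · have : ¬ (g b = true ∧ η b = τ y) := fun e => hcon b y e.1 gy q hy e.2
              rw [if_neg this]
              split_ifs <;> norm_num
          have hlt : 0 < excG g τ η (τ y) := by
            unfold excG
            rw [← Finset.sum_sub_distrib]
            refine Finset.sum_pos' (fun b _ => hterm b) ⟨y, mem_univ _, ?_⟩
            rw [if_pos ⟨gy, rfl⟩, if_neg (fun e => hy e.2.symm)]; norm_num
          exact absurd (he2 _ hyt) (not_le.2 hlt)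
      have hne : x ≠ y := fun e => hx (by rw [hxy, e])
      let τ' : B → V := Function.update τ y (η y)
      let η' : B → V := Function.update η x (η y)
      have t1 : τ' y = η y := Function.update_self ..
      have t2 : ∀ b, b ≠ y → τ' b = τ b := fun b h => Function.update_of_ne h ..
      have e1 : η' x = η y := Function.update_self ..
      have e2 : ∀ b, b ≠ x → η' b = η b := fun b h => Function.update_of_ne h ..
      have hr' : ∀ b, Reach tail head (τ' b) (η' b) := by
        intro b
        by_cases q1 : b = x
        · subst q1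
          rw [t2 _ hne, e1]
          have := hr b
          rw [hxy] at this
          exact Relation.ReflTransGen.trans this (hr y)
        · by_cases q2 : b = y
          · subst q2
            rw [t1, e2 _ q1]
            exact Relation.ReflTransGen.refl
          · rw [t2 _ q2, e2 _ q1]; exact hr b
      have hd' : DijA tail head s t τ' η' m := by
        intro U hU hne' hnu
        refine (hd U hU hne' hnu).trans ?_
        have hclo : ∀ b, η b ∈ U → τ b ∈ U := by
          intro b hb
          exact_mod_cast hU.reach (hr b) (by exact_mod_cast hb)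
        apply Finset.card_le_card_of_injOn (fun b => if b = y then x else b)
        · intro b hb
          have hb' := (Finset.mem_filter.1 (Finset.mem_coe.1 hb)).2
          refine Finset.mem_coe.2 (Finset.mem_filter.2 ⟨mem_univ _, ?_⟩)
          show τ' (if b = y then x else b) ∈ U ∧ η' (if b = y then x else b) ∉ U
          by_cases q2 : b = y
          · rw [if_pos q2, t2 _ hne, e1]
            subst q2
            exact ⟨hclo x (by rw [hxy]; exact hb'.1), hb'.2⟩
          · rw [if_neg q2]
            by_cases q1 : b = x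
            · subst q1
              rw [t2 _ hne, e1]
              refine ⟨hb'.1, fun h => hb'.2 ?_⟩
              rw [hxy]; exact hclo y h
            · rw [t2 _ q2, e2 _ q1]; exact hb'
        · intro b hb b' hb' hbb
          have h1 := (Finset.mem_filter.1 (Finset.mem_coe.1 hb)).2
          have h2 := (Finset.mem_filter.1 (Finset.mem_coe.1 hb')).2
          simp only at hbb
          by_cases q1 : b = y <;> by_cases q2 : b' = y
          · rw [q1, q2]
          · rw [if_pos q1, if_neg q2] at hbb
            exfalso
            rw [q1] at h1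
            rw [← hbb, hxy] at h2
            exact h2.2 h1.1
          · rw [if_neg q1, if_pos q2] at hbb
            exfalso
            rw [q2] at h2
            rw [hbb, hxy] at h1
            exact h1.2 h2.1
          · rwa [if_neg q1, if_neg q2] at hbb
      have hN' : (univ.filter (fun b => g b = true ∧ τ' b ≠ η' b)).card ≤ N := by
        have hsub : univ.filter (fun b => g b = true ∧ τ' b ≠ η' b) ⊆
            (univ.filter (fun b => g b = true ∧ τ b ≠ η b)).erase y := by
          intro b hb
          have hb' := (Finset.mem_filter.1 hb).2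
          have q2 : b ≠ y := by
            intro q
            apply hb'.2
            rw [q, t1, e2 _ hne.symm]
          rw [Finset.mem_erase]
          refine ⟨q2, Finset.mem_filter.2 ⟨mem_univ _, hb'.1, ?_⟩⟩
          by_cases q1 : b = x
          · rw [q1]; exact hx
          · have := hb'.2
            rw [t2 _ q2, e2 _ q1] at this; exact this
        have h3 := Finset.card_le_card hsub
        have hymem : y ∈ univ.filter (fun b => g b = true ∧ τ b ≠ η b) :=
          Finset.mem_filter.2 ⟨mem_univ _, gy, hy⟩
        rw [Finset.card_erase_of_mem hymem] at h3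
        omega
      have hexc : ∀ v, excG g τ' η' v = excG g τ η v := by
        intro v
        unfold excG
        rw [show (∑ b, if g b = true ∧ τ' b = v then (1 : ℤ) else 0) = _ from
            sum_updG g τ y gy (η y) v,
          show (∑ b, if g b = true ∧ η' b = v then (1 : ℤ) else 0) = _ from
            sum_updG g η x gx (η y) v, hxy]
        ring
      obtain ⟨c', hc'⟩ := ih τ' η' hN' hr' hd' (fun v h h' => by rw [hexc]; exact hs1 v h h')
        (fun v h h' => by rw [hexc]; exact ht1 v h h') (fun v h => by rw [hexc]; exact he1 v h)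
        (fun v h => by rw [hexc]; exact he2 v h)
      refine ⟨Function.update c' y (c' x), ?_⟩
      intro i U hU hne' hnu
      obtain ⟨b, hb1, hb2, hb3⟩ := hc' i U hU hne' hnu
      have q2 : b ≠ y := by
        intro q
        rw [q, t1] at hb2
        rw [q, e2 _ hne.symm] at hb3
        exact hb3 hb2
      by_cases q1 : b = x
      · subst q1
        rw [t2 _ hne] at hb2
        rw [e1] at hb3
        by_cases q3 : η b ∈ U
        · refine ⟨y, ?_, by rw [← hxy]; exact q3, hb3⟩
          rw [Function.update_self]; exact hb1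
        · refine ⟨b, ?_, hb2, q3⟩
          rw [Function.update_of_ne hne]; exact hb1
      · rw [t2 _ q2] at hb2
        rw [e2 _ q1] at hb3
        refine ⟨b, ?_, hb2, hb3⟩
        rw [Function.update_of_ne q2]; exact hb1

end Flo

/-- the final form -/
theorem mainFlow {V A : Type} [Finite V] [Finite A] (tail head : A → V) (s t : V)
    (hsrc : ∀ v, ∃ u, IsSource head u ∧ Reach tail head u v)
    (hsnk : ∀ v, ∃ w, IsSink tail w ∧ Reach tail head v w)
    (k : ℕ) (hk : 1 ≤ k) (F G : Set A) (hGF : G ⊆ F) (p q : A → V)
    (h1 : ∀ a ∈ F, Reach tail head (tail a) (p a))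
    (h2 : ∀ a ∈ F, Reach tail head (p a) (q a))
    (h3 : ∀ a ∈ F, Reach tail head (q a) (head a))
    (hF : ∀ U : Set V, IsShore tail head U → s ∈ U → t ∉ U →
      k ≤ ({a | a ∈ F ∧ p a ∈ U ∧ q a ∉ U} : Set A).ncard)
    (g1 : ∀ u, IsSource head u → u ≠ s →
      k + ({a | a ∈ G ∧ q a = u} : Set A).ncard ≤ ({a | a ∈ G ∧ p a = u} : Set A).ncard)
    (g2 : ∀ w, IsSink tail w → w ≠ t →
      k + ({a | a ∈ G ∧ p a = w} : Set A).ncard ≤ ({a | a ∈ G ∧ q a = w} : Set A).ncard)
    (g3 : ∀ v, ¬ Reach tail head s v →
      ({a | a ∈ G ∧ q a = v} : Set A).ncard ≤ ({a | a ∈ G ∧ p a = v} : Set A).ncard)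
    (g4 : ∀ v, ¬ Reach tail head v t →
      ({a | a ∈ G ∧ p a = v} : Set A).ncard ≤ ({a | a ∈ G ∧ q a = v} : Set A).ncard) :
    ∃ P : Fin k → Set A, (∀ i, IsKDijoin tail head 1 (P i)) ∧
      (∀ i j, i ≠ j → Disjoint (P i) (P j)) ∧ (⋃ i, P i) = F := by
  classical
  have : Fintype V := Fintype.ofFinite V
  have : Fintype A := Fintype.ofFinite A
  obtain ⟨m, rfl⟩ : ∃ m, k = m + 1 := ⟨k - 1, by omega⟩
  let τ : ↥F → V := fun b => p b.1
  let η : ↥F → V := fun b => q b.1
  let g : ↥F → Bool := fun b => decide (b.1 ∈ G)
  have hg : ∀ b, g b = true ↔ b.1 ∈ G := by intro b; simp [g]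
  have hcnt : ∀ p : A → Prop, ({a | a ∈ F ∧ p a} : Set A).ncard =
      (univ.filter (fun b : ↥F => p b.1)).card := by
    intro p
    rw [← Set.ncard_coe_finset]
    symm
    refine Set.ncard_congr (fun b _ => b.1) ?_ ?_ ?_
    · intro b hb
      simp only [coe_filter, mem_univ, true_and, Set.mem_ofPred_eq] at hb
      exact ⟨b.2, hb⟩
    · intro b b' _ _ h
      exact Subtype.ext h
    · rintro a ⟨h1, h2⟩
      exact ⟨⟨a, h1⟩, by simpa using h2, rfl⟩
  have hcG : ∀ f : A → V, ∀ v, (∑ b : ↥F, if g b = true ∧ f b.1 = v then (1 : ℤ) else 0) =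
      ((({a | a ∈ G ∧ f a = v} : Set A).ncard : ℕ) : ℤ) := by
    intro f v
    have e1 : ({a | a ∈ G ∧ f a = v} : Set A) = {a | a ∈ F ∧ (a ∈ G ∧ f a = v)} := by
      ext a
      constructor
      · rintro ⟨x, y⟩; exact ⟨hGF x, x, y⟩
      · rintro ⟨_, x, y⟩; exact ⟨x, y⟩
    rw [e1, hcnt, Finset.card_filter]
    push_cast
    apply Finset.sum_congr rfl
    intro b _
    simp only [hg]
  have hexc : ∀ v, excG g τ η v = ((({a | a ∈ G ∧ p a = v} : Set A).ncard : ℕ) : ℤ) -
      ((({a | a ∈ G ∧ q a = v} : Set A).ncard : ℕ) : ℤ) := by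
    intro v
    unfold excG
    rw [show (∑ b : ↥F, if g b = true ∧ τ b = v then (1 : ℤ) else 0) = _ from hcG p v,
      show (∑ b : ↥F, if g b = true ∧ η b = v then (1 : ℤ) else 0) = _ from hcG q v]
  have hgood : Good tail head τ η m := by
    refine balancedG tail head s t hsrc hsnk m g _ τ η le_rfl ?_ ?_ ?_ ?_ ?_ ?_
    · intro b
      exact h2 b.1 b.2
    · intro U hU hsU htU
      have h := hF (U : Set V) ⟨⟨s, by exact_mod_cast hsU⟩, fun e => htU (by
        have : t ∈ (U : Set V) := by rw [e]; trivial
        exact_mod_cast this), hU⟩ (by exact_mod_cast hsU) (by exact_mod_cast htU)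
      rw [hcnt (fun a => p a ∈ (U : Set V) ∧ q a ∉ (U : Set V))] at h
      simpa using h
    · intro u hu hus
      rw [hexc]
      have := g1 u hu hus
      omega
    · intro w hw hwt
      rw [hexc]
      have := g2 w hw hwt
      omega
    · intro v hv
      rw [hexc]
      have := g3 v hv
      omega
    · intro v hv
      rw [hexc]
      have := g4 v hv
      omega
  obtain ⟨c, hc⟩ := hgood
  refine ⟨fun i => {a | ∃ h : a ∈ F, c ⟨a, h⟩ = i}, ?_, ?_, ?_⟩
  · intro i U hU
    rw [Nat.one_le_iff_ne_zero, ← Nat.pos_iff_ne_zero, Set.ncard_pos (Set.toFinite _)]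
    let Uf : Finset V := univ.filter (fun v => v ∈ U)
    have hUf : ∀ v, v ∈ Uf ↔ v ∈ U := by intro v; simp [Uf]
    have g1 : Cl tail head (Uf : Set V) := by
      intro a ha
      have h1 : head a ∈ Uf := by exact_mod_cast ha
      have : tail a ∈ Uf := (hUf _).2 (hU.2.2 a ((hUf _).1 h1))
      exact_mod_cast this
    have g2 : Uf.Nonempty := by
      obtain ⟨x, hx⟩ := hU.1
      exact ⟨x, (hUf x).2 hx⟩
    have g3 : Uf ≠ univ := by
      intro e
      apply hU.2.1
      ext v
      simp only [Set.mem_univ, iff_true]
      rw [← hUf, e]; exact mem_univ _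
    obtain ⟨b, hb1, hb2, hb3⟩ := hc i Uf g1 g2 g3
    have hcl : Cl tail head U := hU.2.2
    exact ⟨b.1, ⟨b.2, hb1⟩, hcl.reach (h1 b.1 b.2) ((hUf _).1 hb2),
      fun h => hb3 ((hUf _).2 (hcl.reach (h3 b.1 b.2) h))⟩
  · intro i j hij
    rw [Set.disjoint_left]
    rintro a ⟨h1, h2⟩ ⟨h3, h4⟩
    exact hij (h2.symm.trans h4)
  · ext a
    simp

end Pool.Agent.H968R4
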